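import Pool.Agent.N183.U8.StmF
import Pool.Agent.N183.U8.D2

/-! # Project GS (helper183): skewness of the double commutant (F3) -/

set_option autoImplicit false

namespace Pool.Agent.N199.GSF3

open Module Pool.Agent.N183.U8

theorem F3 : S_F3 := by
  intro V _ _ _ L om hCR hnd hL A hA hAc U hU b hb u hu v hv
  obtain ⟨Q, hQ, hQc⟩ := hCR U hU
  obtain ⟨π, h1, h2, -, h3⟩ := exists_proj hU hQ hQc
  have hinj : Function.Injective om := by
    rw [← LinearMap.ker_eq_bot, LinearMap.ker_eq_bot']
    intro x hx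
    exact hnd x fun y => by rw [hx]; rfl
  let e : V ≃ₗ[ℂ] (V →ₗ[ℂ] ℂ) :=
    LinearMap.linearEquivOfInjective om hinj (Subspace.dual_finrank_eq (K := ℂ) (V := V)).symm
  let P : End ℂ V := (e.symm : (V →ₗ[ℂ] ℂ) →ₗ[ℂ] V).comp (b.compl₁₂ π π)
  have hP : ∀ x y, om (P x) y = b (π x) (π y) := by
    intro x y
    have h4 : om (P x) = b.compl₁₂ π π x := by
      change e (e.symm (b.compl₁₂ π π x)) = _
      rw [LinearEquiv.apply_symm_apply]
    rw [h4]
    rfl
  have hPL : ∀ X ∈ L, P * X = X * P := by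
    intro X hX
    refine LinearMap.ext fun x => hinj (LinearMap.ext fun y => ?_)
    change om (P (X x)) y = om (X (P x)) y
    have h4 := hL X hX (P x) y
    have h5 := hb X hX (π x) (h1 x) (π y) (h1 y)
    rw [hP, h3 X hX]
    rw [hP, h3 X hX] at h4
    linear_combination h5 - h4
  have hPA := LinearMap.congr_fun (hAc P hPL) u
  have hπA := LinearMap.congr_fun (hAc π fun X hX => LinearMap.ext fun x => h3 X hX x)
  have hπu : ∀ x ∈ U, π (A x) = A x := by
    intro x hx
    have h4 := hπA x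
    rw [End.mul_apply, End.mul_apply, h2 x hx] at h4
    exact h4
  have h6 := hA (P u) v
  rw [End.mul_apply, End.mul_apply] at hPA
  rw [← hPA, hP, hP, hπu u hu, hπu v hv, h2 u hu, h2 v hv] at h6
  exact h6

end Pool.Agent.N199.GSF3
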