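import Pool.Agent.N904.AP.Stm

set_option autoImplicit false

/-!
# Project AP: the four base circles
-/

open Set Filter Topology

namespace Pool.Agent.N199.AP

open Pool.Agent.N904.AP

theorem mem_inf (x : Fin 4 → ℝ) : (OnePoint.infty : OnePoint ℂ) ∈ circ x ↔ x 2 + x 3 = 0 := by
  constructor
  · rintro (⟨_, h⟩ | ⟨z, h, _⟩)
    · exact h
    · exact absurd h.symm (OnePoint.coe_ne_infty z)
  · intro h
    exact Or.inl ⟨rfl, h⟩

theorem mem_coe (x : Fin 4 → ℝ) (z : ℂ) : (z : OnePoint ℂ) ∈ circ x ↔ eqn x z = 0 := by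
  constructor
  · rintro (⟨h, _⟩ | ⟨w, h, hw⟩)
    · exact absurd h (OnePoint.coe_ne_infty z)
    · rw [OnePoint.coe_eq_coe] at h
      rw [h]
      exact hw
  · intro h
    exact Or.inr ⟨z, rfl, h⟩

theorem eqn0 (z : ℂ) : eqn (bas 0) z = z.im := by
  simp [eqn, bas]

theorem eqn1 (z : ℂ) : eqn (bas 1) z = 1 - z.im := by
  simp [eqn, bas]
  ring

theorem eqn2 (z : ℂ) : eqn (bas 2) z = z.re ^ 2 + z.im ^ 2 - z.im := by
  simp [eqn, bas]

theorem eqn3 (z : ℂ) : eqn (bas 3) z = z.re ^ 2 + z.im ^ 2 - 2 * z.re - z.im + 1 := by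
  simp [eqn, bas]

theorem inf0 : (OnePoint.infty : OnePoint ℂ) ∈ Cc 0 := by
  unfold Cc
  rw [mem_inf]
  simp [bas]

theorem inf1 : (OnePoint.infty : OnePoint ℂ) ∈ Cc 1 := by
  unfold Cc
  rw [mem_inf]
  simp [bas]

theorem inf2 : (OnePoint.infty : OnePoint ℂ) ∉ Cc 2 := by
  unfold Cc
  rw [mem_inf]
  simp [bas]

theorem inf3 : (OnePoint.infty : OnePoint ℂ) ∉ Cc 3 := by
  unfold Cc
  rw [mem_inf]
  simp [bas]

theorem coe0 (z : ℂ) : (z : OnePoint ℂ) ∈ Cc 0 ↔ z.im = 0 := by
  unfold Cc
  rw [mem_coe, eqn0]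

theorem coe1 (z : ℂ) : (z : OnePoint ℂ) ∈ Cc 1 ↔ z.im = 1 := by
  unfold Cc
  rw [mem_coe, eqn1, sub_eq_zero, eq_comm]

theorem coe2 (z : ℂ) : (z : OnePoint ℂ) ∈ Cc 2 ↔ z.re ^ 2 + z.im ^ 2 - z.im = 0 := by
  unfold Cc
  rw [mem_coe, eqn2]

theorem coe3 (z : ℂ) : (z : OnePoint ℂ) ∈ Cc 3 ↔
    z.re ^ 2 + z.im ^ 2 - 2 * z.re - z.im + 1 = 0 := by
  unfold Cc
  rw [mem_coe, eqn3]

theorem Cc0_eq : Cc 0 = RR := by
  ext p
  induction p using OnePoint.rec with
  | infty => exact ⟨fun _ => Set.mem_insert _ _, fun _ => inf0⟩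
  | coe z =>
    rw [coe0]
    constructor
    · intro h
      refine Or.inr ⟨z.re, ?_⟩
      show ((z.re : ℂ) : OnePoint ℂ) = (z : OnePoint ℂ)
      rw [OnePoint.coe_eq_coe]
      apply Complex.ext
      · simp
      · simp [h]
    · rintro (h | ⟨x, h⟩)
      · exact absurd h (OnePoint.coe_ne_infty z)
      · have h' : ((x : ℂ) : OnePoint ℂ) = (z : OnePoint ℂ) := h
        rw [OnePoint.coe_eq_coe] at h'
        rw [← h']
        simp

theorem smul_coe (a b c d : ℂ) (h : a * d - b * c ≠ 0) (z : ℂ) (hz : c * z + d ≠ 0) :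
    mk2 a b c d h • (z : OnePoint ℂ) = (((a * z + b) / (c * z + d) : ℂ) : OnePoint ℂ) := by
  rw [OnePoint.smul_some_eq_ite]
  exact if_neg hz

theorem smul_inf (a b c d : ℂ) (h : a * d - b * c ≠ 0) (hc : c ≠ 0) :
    mk2 a b c d h • (OnePoint.infty : OnePoint ℂ) = ((a / c : ℂ) : OnePoint ℂ) := by
  rw [OnePoint.smul_infty_eq_ite]
  exact if_neg hc

theorem smul_inf' (a b d : ℂ) (h : a * d - b * 0 ≠ 0) :
    mk2 a b 0 d h • (OnePoint.infty : OnePoint ℂ) = OnePoint.infty := by
  rw [OnePoint.smul_infty_eq_ite]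
  exact if_pos rfl

theorem circ0 : IsCirc (Cc 0) := by
  refine ⟨1, ?_⟩
  rw [Cc0_eq]
  unfold img
  simp

theorem ne_i (x : ℝ) : (x : ℂ) + Complex.I ≠ 0 := by
  intro h
  have := congrArg Complex.im h
  simp at this

theorem circ1 : IsCirc (Cc 1) := by
  refine ⟨mk2 1 Complex.I 0 1 (by norm_num), ?_⟩
  ext p
  constructor
  · intro hp
    induction p using OnePoint.rec with
    | infty => exact ⟨OnePoint.infty, Set.mem_insert _ _, smul_inf' _ _ _ _⟩
    | coe z =>
      rw [coe1] at hp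
      refine ⟨((z.re : ℂ) : OnePoint ℂ), Or.inr ⟨z.re, rfl⟩, ?_⟩
      show mk2 1 Complex.I 0 1 _ • ((z.re : ℂ) : OnePoint ℂ) = _
      rw [smul_coe _ _ _ _ _ _ (by simp), OnePoint.coe_eq_coe]
      apply Complex.ext
      · simp
      · simp [hp]
  · rintro ⟨q, (rfl | ⟨x, rfl⟩), rfl⟩
    · show mk2 1 Complex.I 0 1 _ • (OnePoint.infty : OnePoint ℂ) ∈ _
      rw [smul_inf']
      exact inf1
    · show mk2 1 Complex.I 0 1 _ • ((x : ℂ) : OnePoint ℂ) ∈ _
      rw [smul_coe _ _ _ _ _ _ (by simp), coe1]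
      simp

theorem circ2 : IsCirc (Cc 2) := by
  refine ⟨mk2 0 (-1) 1 Complex.I (by norm_num), ?_⟩
  ext p
  constructor
  · intro hp
    induction p using OnePoint.rec with
    | infty => exact absurd hp inf2
    | coe z =>
      rw [coe2] at hp
      by_cases hz : z = 0
      · refine ⟨OnePoint.infty, Set.mem_insert _ _, ?_⟩
        show mk2 0 (-1) 1 Complex.I _ • (OnePoint.infty : OnePoint ℂ) = _
        rw [smul_inf _ _ _ _ _ one_ne_zero, hz]
        simp
      · have hn : 0 < z.re ^ 2 + z.im ^ 2 := by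
          rcases eq_or_ne z.re 0 with h1 | h1
          · have h2 : z.im ≠ 0 := fun h2 => hz (Complex.ext h1 h2)
            positivity
          · positivity
        have him : z.im = z.re ^ 2 + z.im ^ 2 := by linarith
        refine ⟨((((-z.re / z.im : ℝ)) : ℂ) : OnePoint ℂ), Or.inr ⟨_, rfl⟩, ?_⟩
        show mk2 0 (-1) 1 Complex.I _ • ((((-z.re / z.im : ℝ)) : ℂ) : OnePoint ℂ) = _
        have hi : z.im ≠ 0 := by rw [him]; exact hn.ne'
        rw [smul_coe _ _ _ _ _ _ (by rw [one_mul]; exact ne_i _), OnePoint.coe_eq_coe,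
          div_eq_iff (by rw [one_mul]; exact ne_i _)]
        apply Complex.ext
        · simp only [zero_mul, zero_add, one_mul, Complex.neg_re, Complex.one_re, Complex.mul_re,
            Complex.add_re, Complex.ofReal_re, Complex.I_re, Complex.add_im, Complex.ofReal_im,
            Complex.I_im]
          field_simp
          nlinarith
        · simp only [zero_mul, zero_add, one_mul, Complex.neg_im, Complex.one_im, Complex.mul_im,
            Complex.add_re, Complex.ofReal_re, Complex.I_re, Complex.add_im, Complex.ofReal_im,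
            Complex.I_im]
          field_simp
          ring
  · rintro ⟨q, (rfl | ⟨x, rfl⟩), rfl⟩
    · show mk2 0 (-1) 1 Complex.I _ • (OnePoint.infty : OnePoint ℂ) ∈ _
      rw [smul_inf _ _ _ _ _ one_ne_zero, coe2]
      simp
    · show mk2 0 (-1) 1 Complex.I _ • ((x : ℂ) : OnePoint ℂ) ∈ _
      rw [smul_coe _ _ _ _ _ _ (by rw [one_mul]; exact ne_i _), coe2]
      have hx : x ^ 2 + 1 ≠ 0 := by positivity
      simp only [zero_mul, zero_add, one_mul, Complex.div_re, Complex.div_im, Complex.neg_re,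
        Complex.one_re, Complex.neg_im, Complex.one_im, Complex.add_re, Complex.ofReal_re,
        Complex.I_re, Complex.add_im, Complex.ofReal_im, Complex.I_im, Complex.normSq_apply]
      have hx2 : (x + 0) * (x + 0) + 1 * 1 ≠ 0 := by
        have : (x + 0) * (x + 0) + 1 * 1 = x ^ 2 + 1 := by ring
        rw [this]
        exact hx
      field_simp
      ring

theorem circ3 : IsCirc (Cc 3) := by
  refine ⟨mk2 1 (Complex.I - 1) 1 Complex.I (by norm_num), ?_⟩
  ext p
  constructor
  · intro hp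
    induction p using OnePoint.rec with
    | infty => exact absurd hp inf3
    | coe z =>
      rw [coe3] at hp
      by_cases hz : z = 1
      · refine ⟨OnePoint.infty, Set.mem_insert _ _, ?_⟩
        show mk2 1 (Complex.I - 1) 1 Complex.I _ • (OnePoint.infty : OnePoint ℂ) = _
        rw [smul_inf _ _ _ _ _ one_ne_zero, hz]
        simp
      · have hn : 0 < (z.re - 1) ^ 2 + z.im ^ 2 := by
          rcases eq_or_ne (z.re - 1) 0 with h1 | h1
          · have h2 : z.im ≠ 0 := fun h2 => hz (Complex.ext (by simp; linarith) (by simp [h2]))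
            positivity
          · positivity
        have him : z.im = (z.re - 1) ^ 2 + z.im ^ 2 := by linarith
        refine ⟨((((-(z.re - 1) / z.im : ℝ)) : ℂ) : OnePoint ℂ), Or.inr ⟨_, rfl⟩, ?_⟩
        show mk2 1 (Complex.I - 1) 1 Complex.I _ •
          ((((-(z.re - 1) / z.im : ℝ)) : ℂ) : OnePoint ℂ) = _
        have hi : z.im ≠ 0 := by rw [him]; exact hn.ne'
        rw [smul_coe _ _ _ _ _ _ (by rw [one_mul]; exact ne_i _), OnePoint.coe_eq_coe,
          div_eq_iff (by rw [one_mul]; exact ne_i _)]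
        apply Complex.ext
        · simp only [one_mul, Complex.sub_re, Complex.one_re, Complex.mul_re,
            Complex.add_re, Complex.ofReal_re, Complex.I_re, Complex.add_im, Complex.ofReal_im,
            Complex.I_im]
          field_simp
          nlinarith
        · simp only [one_mul, Complex.sub_im, Complex.one_im, Complex.mul_im,
            Complex.add_re, Complex.ofReal_re, Complex.I_re, Complex.add_im, Complex.ofReal_im,
            Complex.I_im]
          field_simp
          ring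
  · rintro ⟨q, (rfl | ⟨x, rfl⟩), rfl⟩
    · show mk2 1 (Complex.I - 1) 1 Complex.I _ • (OnePoint.infty : OnePoint ℂ) ∈ _
      rw [smul_inf _ _ _ _ _ one_ne_zero, coe3]
      simp
      norm_num
    · show mk2 1 (Complex.I - 1) 1 Complex.I _ • ((x : ℂ) : OnePoint ℂ) ∈ _
      rw [smul_coe _ _ _ _ _ _ (by rw [one_mul]; exact ne_i _), coe3]
      have hx : x ^ 2 + 1 ≠ 0 := by positivity
      simp only [one_mul, Complex.div_re, Complex.div_im, Complex.sub_re, Complex.sub_im,
        Complex.one_re, Complex.one_im, Complex.add_re, Complex.ofReal_re,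
        Complex.I_re, Complex.add_im, Complex.ofReal_im, Complex.I_im, Complex.normSq_apply]
      have hx2 : (x + 0) * (x + 0) + 1 * 1 ≠ 0 := by
        have : (x + 0) * (x + 0) + 1 * 1 = x ^ 2 + 1 := by ring
        rw [this]
        exact hx
      field_simp
      ring

theorem tan_symm {S T : Set (OnePoint ℂ)} (h : Tan S T) : Tan T S := by
  unfold Tan at h ⊢
  rw [Set.inter_comm]
  exact h

theorem tan01 : Tan (Cc 0) (Cc 1) := by
  refine ⟨OnePoint.infty, ⟨inf0, inf1⟩, ?_⟩
  rintro p ⟨h1, h2⟩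
  induction p using OnePoint.rec with
  | infty => rfl
  | coe z =>
    rw [coe0] at h1
    rw [coe1] at h2
    linarith

theorem tan02 : Tan (Cc 0) (Cc 2) := by
  refine ⟨((0 : ℂ) : OnePoint ℂ), ⟨by rw [coe0]; simp, by rw [coe2]; simp⟩, ?_⟩
  rintro p ⟨h1, h2⟩
  induction p using OnePoint.rec with
  | infty => exact absurd h2 inf2
  | coe z =>
    rw [coe0] at h1
    rw [coe2, h1] at h2
    rw [OnePoint.coe_eq_coe]
    apply Complex.ext
    · show z.re = 0
      nlinarith
    · exact h1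

theorem tan03 : Tan (Cc 0) (Cc 3) := by
  refine ⟨((1 : ℂ) : OnePoint ℂ), ⟨by rw [coe0]; simp, by rw [coe3]; simp; norm_num⟩, ?_⟩
  rintro p ⟨h1, h2⟩
  induction p using OnePoint.rec with
  | infty => exact absurd h2 inf3
  | coe z =>
    rw [coe0] at h1
    rw [coe3, h1] at h2
    rw [OnePoint.coe_eq_coe]
    apply Complex.ext
    · show z.re = 1
      nlinarith
    · exact h1

theorem tan12 : Tan (Cc 1) (Cc 2) := by
  refine ⟨(Complex.I : OnePoint ℂ), ⟨by rw [coe1]; simp, by rw [coe2]; simp⟩, ?_⟩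
  rintro p ⟨h1, h2⟩
  induction p using OnePoint.rec with
  | infty => exact absurd h2 inf2
  | coe z =>
    rw [coe1] at h1
    rw [coe2, h1] at h2
    rw [OnePoint.coe_eq_coe]
    apply Complex.ext
    · show z.re = 0
      nlinarith
    · rw [h1]
      simp

theorem tan13 : Tan (Cc 1) (Cc 3) := by
  refine ⟨((1 + Complex.I : ℂ) : OnePoint ℂ),
    ⟨by rw [coe1]; simp, by rw [coe3]; simp; norm_num⟩, ?_⟩
  rintro p ⟨h1, h2⟩
  induction p using OnePoint.rec with
  | infty => exact absurd h2 inf3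
  | coe z =>
    rw [coe1] at h1
    rw [coe3, h1] at h2
    rw [OnePoint.coe_eq_coe]
    apply Complex.ext
    · have : z.re = 1 := by nlinarith
      rw [this]
      simp
    · rw [h1]
      simp

theorem tan23 : Tan (Cc 2) (Cc 3) := by
  have hh : (((1 / 2 : ℝ) : ℂ) + ((1 / 2 : ℝ) : ℂ) * Complex.I).re = 1 / 2 := by simp
  have hh' : (((1 / 2 : ℝ) : ℂ) + ((1 / 2 : ℝ) : ℂ) * Complex.I).im = 1 / 2 := by simp
  refine ⟨(((((1 / 2 : ℝ) : ℂ) + ((1 / 2 : ℝ) : ℂ) * Complex.I) : ℂ) : OnePoint ℂ),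
    ⟨by rw [coe2, hh, hh']; norm_num, by rw [coe3, hh, hh']; norm_num⟩, ?_⟩
  rintro p ⟨h1, h2⟩
  induction p using OnePoint.rec with
  | infty => exact absurd h1 inf2
  | coe z =>
    rw [coe2] at h1
    rw [coe3] at h2
    have h3 : z.re = 1 / 2 := by linarith
    have h4 : z.im = 1 / 2 := by
      rw [h3] at h1
      have : (z.im - 1 / 2) ^ 2 = 0 := by linarith
      have := pow_eq_zero_iff (two_ne_zero) |>.1 this
      linarith
    rw [OnePoint.coe_eq_coe]
    apply Complex.ext
    · rw [hh, h3]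
    · rw [hh', h4]

theorem tri012 : Cc 0 ∩ Cc 1 ∩ Cc 2 = ∅ := by
  rw [Set.eq_empty_iff_forall_notMem]
  rintro p ⟨⟨h1, h2⟩, h3⟩
  induction p using OnePoint.rec with
  | infty => exact inf2 h3
  | coe z =>
    rw [coe0] at h1
    rw [coe1] at h2
    linarith

theorem tri013 : Cc 0 ∩ Cc 1 ∩ Cc 3 = ∅ := by
  rw [Set.eq_empty_iff_forall_notMem]
  rintro p ⟨⟨h1, h2⟩, h3⟩
  induction p using OnePoint.rec with
  | infty => exact inf3 h3
  | coe z =>
    rw [coe0] at h1
    rw [coe1] at h2
    linarith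

theorem tri023 : Cc 0 ∩ Cc 2 ∩ Cc 3 = ∅ := by
  rw [Set.eq_empty_iff_forall_notMem]
  rintro p ⟨⟨h1, h2⟩, h3⟩
  induction p using OnePoint.rec with
  | infty => exact inf3 h3
  | coe z =>
    rw [coe0] at h1
    rw [coe2, h1] at h2
    rw [coe3, h1] at h3
    nlinarith

theorem tri123 : Cc 1 ∩ Cc 2 ∩ Cc 3 = ∅ := by
  rw [Set.eq_empty_iff_forall_notMem]
  rintro p ⟨⟨h1, h2⟩, h3⟩
  induction p using OnePoint.rec with
  | infty => exact inf3 h3
  | coe z =>
    rw [coe1] at h1
    rw [coe2, h1] at h2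
    rw [coe3, h1] at h3
    nlinarith

theorem perm_tri {A B C : Set (OnePoint ℂ)} (h : A ∩ B ∩ C = ∅) :
    A ∩ C ∩ B = ∅ ∧ B ∩ A ∩ C = ∅ ∧ B ∩ C ∩ A = ∅ ∧ C ∩ A ∩ B = ∅ ∧ C ∩ B ∩ A = ∅ := by
  refine ⟨?_, ?_, ?_, ?_, ?_⟩ <;> rw [← h] <;> ext p <;> simp only [Set.mem_inter_iff] <;> tauto

/-- The facts about the base circles. -/
theorem base : StBase := by
  refine ⟨Cc0_eq, ?_, ?_, ?_⟩
  · intro k
    fin_cases k
    · exact circ0
    · exact circ1
    · exact circ2
    · exact circ3
  · intro j k hjk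
    fin_cases j <;> fin_cases k
    · exact absurd rfl hjk
    · exact tan01
    · exact tan02
    · exact tan03
    · exact tan_symm tan01
    · exact absurd rfl hjk
    · exact tan12
    · exact tan13
    · exact tan_symm tan02
    · exact tan_symm tan12
    · exact absurd rfl hjk
    · exact tan23
    · exact tan_symm tan03
    · exact tan_symm tan13
    · exact tan_symm tan23
    · exact absurd rfl hjk
  · intro i j k hij hjk hik
    have h012 := perm_tri tri012
    have h013 := perm_tri tri013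
    have h023 := perm_tri tri023
    have h123 := perm_tri tri123
    fin_cases i <;> fin_cases j <;> fin_cases k <;>
      first
      | exact absurd rfl hij
      | exact absurd rfl hjk
      | exact absurd rfl hik
      | exact tri012
      | exact h012.1
      | exact h012.2.1
      | exact h012.2.2.1
      | exact h012.2.2.2.1
      | exact h012.2.2.2.2
      | exact tri013
      | exact h013.1
      | exact h013.2.1
      | exact h013.2.2.1
      | exact h013.2.2.2.1
      | exact h013.2.2.2.2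
      | exact tri023
      | exact h023.1
      | exact h023.2.1
      | exact h023.2.2.1
      | exact h023.2.2.2.1
      | exact h023.2.2.2.2
      | exact tri123
      | exact h123.1
      | exact h123.2.1
      | exact h123.2.2.1
      | exact h123.2.2.2.1
      | exact h123.2.2.2.2

end Pool.Agent.N199.AP
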