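import Pool.Agent.N20.DI.Stm3

/-!
# DI/RADS: sums over classes of chains and of radical chains
-/

set_option autoImplicit false
set_option linter.unusedSectionVars false

open scoped Classical BigOperators

noncomputable section

namespace Pool.Agent.N199.DIRADS

open Pool.Agent.N20.DI
open Pool.Agent.Y63.NV
open Pool.Agent.Y63.KR
open Pool.Agent.R674.Ce (chs wt Sp)
open Pool.Agent.R674.Tw (GCh NG gchSetoid invSum)

section

variable {E : Type} [Group E] [Finite E]

theorem conj_le' {G P : Subgroup E} {g : E} (hg : g ∈ G) (hP : P ≤ G) : conjSub g P ≤ G := by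
  intro x hx
  rw [mem_conjSub] at hx
  have h1 := G.mul_mem (G.mul_mem hg (hP hx)) (G.inv_mem hg)
  have e : g * (g⁻¹ * x * g) * g⁻¹ = x := by group
  rwa [e] at h1

/-- the sum over the classes of chains as a weighted sum over all chains -/
theorem gen (G : Subgroup E) (X : Set (Subgroup E) → Prop)
    (hX : ∀ σ, X σ → IsChain (· ≤ ·) σ) (hc : ∀ g ∈ G, ∀ σ, X σ → X (conjSub g '' σ))
    (s : Setoid {σ : Set (Subgroup E) // X σ})
    (hs : ∀ σ τ : {σ : Set (Subgroup E) // X σ}, s.r σ τ ↔ ∃ g ∈ G, τ.1 = conjSub g '' σ.1)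
    (f : Set (Subgroup E) → ℤ) (hf : ∀ g ∈ G, ∀ σ, f (conjSub g '' σ) = f σ) :
    (Nat.card G : ℤ) * ∑ᶠ c : Quotient s, (-1) ^ c.out.1.ncard * f c.out.1 =
      ∑ᶠ σ : {σ : Set (Subgroup E) // X σ},
        (-1) ^ σ.1.ncard * ((Nat.card (NG G σ.1) : ℤ) * f σ.1) := by
  letI : Fintype {σ : Set (Subgroup E) // X σ} := Fintype.ofFinite _
  letI : MulAction G {σ : Set (Subgroup E) // X σ} :=
    { smul := fun g σ => ⟨conjSub (g : E) '' σ.1, hc g g.2 σ.1 σ.2⟩
      one_smul := fun σ => by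
        apply Subtype.ext
        change conjSub (1 : E) '' σ.1 = σ.1
        have : (conjSub (1 : E)) = id := funext conjSub_one
        rw [this, Set.image_id]
      mul_smul := fun g h σ => by
        apply Subtype.ext
        change conjSub ((g : E) * h) '' σ.1 = conjSub (g : E) '' (conjSub (h : E) '' σ.1)
        rw [← Set.image_comp]
        congr 1
        exact funext fun P => conjSub_mul _ _ P }
  have hsm : ∀ (g : G) (σ : {σ : Set (Subgroup E) // X σ}),
      (g • σ).1 = conjSub (g : E) '' σ.1 := fun _ _ => rfl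
  have h := orbit_sum (G := G) s (by
    intro σ τ
    rw [hs]
    constructor
    · rintro ⟨g, hg, h⟩
      exact ⟨⟨g, hg⟩, Subtype.ext (by rw [hsm, h])⟩
    · rintro ⟨g, hg⟩
      exact ⟨g, g.2, by rw [← hg, hsm]⟩)
    (fun σ => (-1) ^ σ.1.ncard * f σ.1) (by
      intro σ τ h0
      obtain ⟨g, hg, h⟩ := (hs σ τ).1 h0
      change (-1) ^ σ.1.ncard * f σ.1 = (-1) ^ τ.1.ncard * f τ.1
      rw [h, ncard_conj, hf g hg])
  rw [h, finsum_eq_sum_of_fintype]
  refine Finset.sum_congr rfl fun σ _ => ?_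
  have hst : Nat.card (MulAction.stabilizer G σ) = Nat.card (NG G σ.1) := by
    have key : ∀ g : G, g ∈ MulAction.stabilizer G σ ↔ (g : E) ∈ chainStabilizer σ.1 := by
      intro g
      rw [MulAction.mem_stabilizer_iff, Subtype.ext_iff, hsm, mem_chainStabilizer]
      constructor
      · intro h3 P hP
        have hgP : conjSub (g : E) P ∈ σ.1 := by
          rw [← h3]
          exact ⟨P, hP, rfl⟩
        have hcard : Nat.card (conjSub (g : E) P) = Nat.card P :=
          Nat.card_congr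
            (Subgroup.equivMapOfInjective _ _ (MulAut.conj (g : E)).injective).toEquiv.symm
        rcases (hX σ.1 σ.2).total hgP hP with h4 | h4
        · exact Subgroup.eq_of_le_of_card_ge h4 hcard.ge
        · exact (Subgroup.eq_of_le_of_card_ge h4 hcard.le).symm
      · intro h3
        ext P
        constructor
        · rintro ⟨Q, hQ, rfl⟩
          rw [h3 Q hQ]
          exact hQ
        · intro hP
          exact ⟨P, hP, h3 P hP⟩
    exact Nat.card_congr
      { toFun := fun g => ⟨g.1.1, Subgroup.mem_inf.2 ⟨g.1.2, (key g.1).1 g.2⟩⟩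
        invFun := fun g => ⟨⟨g.1, (Subgroup.mem_inf.1 g.2).1⟩,
          (key ⟨g.1, (Subgroup.mem_inf.1 g.2).1⟩).2 (Subgroup.mem_inf.1 g.2).2⟩
        left_inv := fun g => rfl
        right_inv := fun g => rfl }
  rw [hst]
  ring

/-- conjugation and the largest normal `p`-subgroup -/
theorem isOp_conj {p : ℕ} {N P : Subgroup E} (g : E) (h : IsOp p N P) :
    IsOp p (conjSub g N) (conjSub g P) := by
  obtain ⟨h1, h2, h3, h4⟩ := h
  refine ⟨conjSub_le h1, h2.map _, ?_, ?_⟩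
  · intro x hx
    rw [mem_conjSub] at hx
    have h5 := h3 _ hx
    rw [← conjSub_mul]
    have e : x * g = g * (g⁻¹ * x * g) := by group
    rw [e, conjSub_mul, h5]
  · intro Q hQ hQp hQn
    have h5 : conjSub g⁻¹ Q ≤ P := by
      apply h4
      · have h6 := conjSub_le (g := g⁻¹) hQ
        rwa [conjSub_inv_conjSub] at h6
      · exact hQp.map _
      · intro x hx
        have h6 : g * x * g⁻¹ ∈ conjSub g N := conj_mem_conjSub hx
        have h7 := hQn _ h6
        rw [← conjSub_mul]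
        have e : x * g⁻¹ = g⁻¹ * (g * x * g⁻¹) := by group
        rw [e, conjSub_mul, h7]
    have h6 := conjSub_le (g := g) h5
    rwa [conjSub_conjSub_inv] at h6

theorem conjSub_self {G : Subgroup E} {g : E} (hg : g ∈ G) : conjSub g G = G := by
  apply le_antisymm (conj_le' hg le_rfl)
  have h := conjSub_le (g := g) (conj_le' (G.inv_mem hg) (le_refl G))
  rwa [conjSub_conjSub_inv] at h

theorem conjSub_inf' (x : E) (P Q : Subgroup E) :
    conjSub x (P ⊓ Q) = conjSub x P ⊓ conjSub x Q := by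
  ext y
  rw [Subgroup.mem_inf, mem_conjSub, mem_conjSub, mem_conjSub, Subgroup.mem_inf]

theorem conjSub_bot (x : E) : conjSub x (⊥ : Subgroup E) = ⊥ := Subgroup.map_bot _

/-- conjugates of radical chains -/
theorem radC_conj {p : ℕ} {G : Subgroup E} {g : E} (hg : g ∈ G) {σ : Set (Subgroup E)}
    (h : σ ∈ RadC p G ⊥) : conjSub g '' σ ∈ RadC p G ⊥ := by
  obtain ⟨h1, h2, h3⟩ := h
  refine ⟨?_, ?_, ?_⟩
  · rintro _ ⟨P, hP, rfl⟩
    obtain ⟨h4, h5, h6⟩ := h1 hP
    exact ⟨h4.map _, bot_lt_iff_ne_bot.2 (conjSub_ne_bot (bot_lt_iff_ne_bot.1 h5)),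
      conj_le' hg h6⟩
  · rintro _ ⟨P, hP, rfl⟩ _ ⟨Q, hQ, rfl⟩ _
    rcases h2.total hP hQ with h1 | h1
    · exact Or.inl (conjSub_le h1)
    · exact Or.inr (conjSub_le h1)
  · rintro _ ⟨P, hP, rfl⟩
    have e : {Q | Q ∈ conjSub g '' σ ∧ Q ≤ conjSub g P} = conjSub g '' {Q | Q ∈ σ ∧ Q ≤ P} := by
      ext Q
      constructor
      · rintro ⟨⟨Q, hQ, rfl⟩, hle⟩
        refine ⟨Q, ⟨hQ, ?_⟩, rfl⟩
        have h4 := conjSub_le (g := g⁻¹) hle
        rwa [conjSub_inv_conjSub, conjSub_inv_conjSub] at h4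
      · rintro ⟨Q, ⟨hQ, hle⟩, rfl⟩
        exact ⟨⟨Q, hQ, rfl⟩, conjSub_le hle⟩
    rw [e, chainStabilizer_conj]
    have h4 := isOp_conj g (h3 P hP)
    rwa [conjSub_inf', conjSub_self hg] at h4

/-- the sum over all chains -/
theorem gch_chs' {p : ℕ} (G : Subgroup E) (w : Set (Subgroup E) → ℤ) :
    chs {P : Subgroup E | IsPGroup p P ∧ ⊥ < P ∧ P ≤ G} w = ∑ᶠ σ : GCh p G, w σ.1 := by
  unfold chs
  symm
  refine finsum_eq_of_bijective (fun σ : GCh p G =>
    (⟨σ.1, fun P hP => ⟨σ.2.1.isPGroup P hP, bot_lt_iff_ne_bot.2 (σ.2.1.ne_bot P hP),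
      σ.2.2 P hP⟩, σ.2.1.chain⟩ :
      {σ : Set (Subgroup E) // σ ⊆ {P : Subgroup E | IsPGroup p P ∧ ⊥ < P ∧ P ≤ G} ∧
        IsChain (· ≤ ·) σ})) ⟨?_, ?_⟩ ?_
  · intro σ τ h
    exact Subtype.ext (congrArg (fun t => t.1) h)
  · rintro ⟨τ, h1, h2⟩
    exact ⟨⟨τ, ⟨h2, fun P hP => (h1 hP).1, fun P hP => bot_lt_iff_ne_bot.1 (h1 hP).2.1⟩,
      fun P hP => (h1 hP).2.2⟩, rfl⟩
  · intro σ
    rfl

end

/-- DI/RADS -/
theorem RADS (h : S_RAD) : S_RADS := by
  intro p _ E _ _ G _ f hf hst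
  have hpos : (Nat.card G : ℤ) ≠ 0 := by exact_mod_cast Nat.card_pos.ne'
  apply mul_left_cancel₀ hpos
  have h1 : (Nat.card G : ℤ) * invSum p G f =
      ∑ᶠ σ : GCh p G, (-1) ^ σ.1.ncard * ((Nat.card (NG G σ.1) : ℤ) * f σ.1) :=
    gen G (fun σ => IsPChain p σ ∧ ∀ P ∈ σ, P ≤ G) (fun σ h => h.1.chain)
      (fun g hg σ h => ⟨h.1.conj g, by
        rintro _ ⟨P, hP, rfl⟩
        exact conj_le' hg (h.2 P hP)⟩)
      (gchSetoid p G) (fun σ τ => Iff.rfl) f hf
  have h2 : (Nat.card G : ℤ) * radSum p G f =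
      ∑ᶠ σ : RCh p G, (-1) ^ σ.1.ncard * ((Nat.card (NG G σ.1) : ℤ) * f σ.1) :=
    gen G (fun σ => σ ∈ RadC p G ⊥) (fun σ h => h.2.1)
      (fun g hg σ h => radC_conj hg h) (rchSetoid p G) (fun σ τ => Iff.rfl) f hf
  rw [h1, h2]
  obtain ⟨φ, hφ⟩ : ∃ φ : Subgroup E → ℤ, ∀ σ : Set (Subgroup E),
      φ (chainStabilizer σ) = (Nat.card (NG G σ) : ℤ) * f σ := by
    refine ⟨fun J => (Nat.card ↥(G ⊓ J) : ℤ) *
      (if h : ∃ σ : Set (Subgroup E), chainStabilizer σ = J then f h.choose else 0), fun σ => ?_⟩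
    have h3 : ∃ τ : Set (Subgroup E), chainStabilizer τ = chainStabilizer σ := ⟨σ, rfl⟩
    change (Nat.card ↥(G ⊓ chainStabilizer σ) : ℤ) *
      (if h : ∃ τ : Set (Subgroup E), chainStabilizer τ = chainStabilizer σ
        then f h.choose else 0) = (Nat.card (NG G σ) : ℤ) * f σ
    rw [dif_pos h3, hst _ _ h3.choose_spec]
    rfl
  have hw : ∀ σ : Set (Subgroup E), wt (⊤ : Subgroup E) φ σ =
      (-1) ^ σ.ncard * ((Nat.card (NG G σ) : ℤ) * f σ) := by
    intro σ
    unfold wt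
    rw [top_inf_eq, hφ]
  have h3 := h p E (⊤ : Subgroup E) G ⊥ IsPGroup.of_bot bot_le le_top
    (fun x _ => by
      have hn : G.Normal := inferInstance
      apply le_antisymm
      · intro y hy
        rw [mem_conjSub] at hy
        have h4 := hn.conj_mem _ hy x
        have e : x * (x⁻¹ * y * x) * x⁻¹ = y := by group
        rwa [e] at h4
      · intro y hy
        rw [mem_conjSub]
        have h4 := hn.conj_mem _ hy x⁻¹
        rwa [inv_inv] at h4)
    (fun x _ => conjSub_bot x) φ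
  rw [gch_chs'] at h3
  rw [finsum_congr fun σ : GCh p G => (hw σ.1).symm, h3]
  exact finsum_congr fun σ => hw σ.1

end Pool.Agent.N199.DIRADS
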