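import Pool.Agent.N639.FS.Stm
import Pool.Agent.Y933.KD.Leb2

/-!
Project FS: moments of the number of occurrences of a word in the digits of a random real number.
-/

set_option autoImplicit false

namespace Pool.Agent.N199.FSL2

open Finset Real MeasureTheory Filter Topology
open Pool.Agent.Y933.KD Pool.Agent.N639.FS

variable {b w : ℕ} {G : ℕ → ℝ} {K : ℝ}

/-- exponential moment along a progression with difference `w` -/
lemma prog (hb : 1 ≤ b) (hG : ∀ c, |G c| ≤ K) {t E : ℝ}
    (hE : ∫ x, exp (t * Xw b w G 0 x) ∂Leb ≤ E) (r J : ℕ) :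
    ∫ x, exp (t * ∑ j ∈ range J, Xw b w G (r + w * j) x) ∂Leb ≤ E ^ J := by
  have hK : 0 ≤ K := (abs_nonneg _).trans (hG 0)
  set A : ℝ → ℝ := fun x => exp (t * Xw b w G 0 x) with hA
  have hAm : Measurable A := Real.measurable_exp.comp ((measurable_Xw _ _ _ _).const_mul t)
  have hAb : ∀ x, |A x| ≤ exp (|t| * K) := by
    intro x
    rw [hA, abs_of_pos (exp_pos _)]
    apply exp_le_exp.2
    calc t * Xw b w G 0 x ≤ |t * Xw b w G 0 x| := le_abs_self _
      _ = |t| * |Xw b w G 0 x| := abs_mul _ _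
      _ ≤ |t| * K := by gcongr; exact hG _
  have h1 : ∀ x, exp (t * ∑ j ∈ range J, Xw b w G (r + w * j) x) =
      (fun y => ∏ j ∈ range J, A (Tb b (w * j) y)) (Tb b r x) := by
    intro x
    simp only [hA]
    rw [← Real.exp_sum, mul_sum]
    congr 1
    refine sum_congr rfl fun j _ => ?_
    rw [Xw_add, ← Xw_add b w G (w * j) 0, Nat.add_zero]
  simp only [h1]
  rw [invariance_real hb (h := fun y => ∏ j ∈ range J, A (Tb b (w * j) y))
    (Finset.measurable_fun_prod _ fun j _ => hAm.comp (measurable_Tb _ _))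
    (C := exp (|t| * K) ^ J)]
  · rw [block_prod_real hb ((dep_Xw (G := G) hb (n := 0) (p := w) (by omega)).comp
      (fun y => exp (t * y))) hAm hAb]
    have h2 : 0 ≤ ∫ x, A x ∂Leb := integral_nonneg fun x => (exp_pos _).le
    exact pow_le_pow_left₀ h2 hE J
  · intro x
    rw [Finset.abs_prod]
    calc ∏ j ∈ range J, |A (Tb b (w * j) x)| ≤ ∏ _j ∈ range J, exp (|t| * K) :=
          prod_le_prod (fun _ _ => abs_nonneg _) fun j _ => hAb _
      _ = exp (|t| * K) ^ J := by rw [prod_const, card_range]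

/-- exponential moment of the sum over `w J` consecutive places -/
lemma blocks (hb : 1 ≤ b) (hw : 1 ≤ w) (hG : ∀ c, |G c| ≤ K) {t E : ℝ}
    (hE : ∫ x, exp (t * Xw b w G 0 x) ∂Leb ≤ E) (J : ℕ) :
    ∫ x, exp (t / w * ∑ n ∈ range (w * J), Xw b w G n x) ∂Leb ≤ E ^ J := by
  have hwR : (0 : ℝ) < w := by exact_mod_cast hw
  have hK : 0 ≤ K := (abs_nonneg _).trans (hG 0)
  have hm : ∀ r, Measurable (fun x => exp (t * ∑ j ∈ range J, Xw b w G (r + w * j) x)) :=
    fun r => Real.measurable_exp.comp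
      ((Finset.measurable_fun_sum _ fun j _ => measurable_Xw _ _ _ _).const_mul _)
  have hint : ∀ r, Integrable (fun x => exp (t * ∑ j ∈ range J, Xw b w G (r + w * j) x))
      Leb := by
    intro r
    refine integrable_of_bdd (hm r) (R := exp (|t| * (J * K))) fun x => ?_
    rw [abs_of_pos (exp_pos _)]
    apply exp_le_exp.2
    refine (le_abs_self _).trans ?_
    rw [abs_mul]
    gcongr
    refine (Finset.abs_sum_le_sum_abs _ _).trans ?_
    calc ∑ j ∈ range J, |Xw b w G (r + w * j) x| ≤ ∑ _j ∈ range J, K :=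
          sum_le_sum fun j _ => hG _
      _ = J * K := by rw [sum_const, card_range, nsmul_eq_mul]
  have h1 : ∀ x, exp (t / w * ∑ n ∈ range (w * J), Xw b w G n x) ≤
      ∑ r ∈ range w, (1 / (w : ℝ)) * exp (t * ∑ j ∈ range J, Xw b w G (r + w * j) x) := by
    intro x
    rw [sum_range_blocks]
    have h2 := convexOn_exp.map_sum_le (t := range w) (w := fun _ => 1 / (w : ℝ))
      (p := fun r => t * ∑ j ∈ range J, Xw b w G (r + w * j) x)
      (fun _ _ => by positivity) (by rw [sum_const, card_range, nsmul_eq_mul]; field_simp)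
      (fun _ _ => Set.mem_univ _)
    simp only [smul_eq_mul] at h2
    refine le_trans (le_of_eq ?_) h2
    congr 1
    rw [mul_sum]
    refine sum_congr rfl fun r _ => ?_
    field_simp
  calc ∫ x, exp (t / w * ∑ n ∈ range (w * J), Xw b w G n x) ∂Leb
      ≤ ∫ x, ∑ r ∈ range w, (1 / (w : ℝ)) *
          exp (t * ∑ j ∈ range J, Xw b w G (r + w * j) x) ∂Leb :=
        integral_mono_of_nonneg (Eventually.of_forall fun x => (exp_pos _).le)
          (integrable_finsetSum _ fun r _ => (hint r).const_mul _) (Eventually.of_forall h1)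
    _ = ∑ r ∈ range w, (1 / (w : ℝ)) *
          ∫ x, exp (t * ∑ j ∈ range J, Xw b w G (r + w * j) x) ∂Leb := by
        rw [integral_finsetSum _ fun r _ => (hint r).const_mul _]
        simp only [MeasureTheory.integral_const_mul]
    _ ≤ ∑ r ∈ range w, (1 / (w : ℝ)) * E ^ J := by
        gcongr with r _
        exact prog hb hG hE r J
    _ = E ^ J := by
        rw [sum_const, card_range, nsmul_eq_mul]
        field_simp

/-- the centred indicator of the word `c` -/
noncomputable def Gc (b w c m : ℕ) : ℝ := (if m = c then 1 else 0) - 1 / (b : ℝ) ^ w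

lemma p_pos (hb : 1 ≤ b) : 0 < 1 / (b : ℝ) ^ w := by
  have : (0 : ℝ) < b := by exact_mod_cast hb
  positivity

lemma p_le (hb : 1 ≤ b) : 1 / (b : ℝ) ^ w ≤ 1 := by
  have : (1 : ℝ) ≤ b := by exact_mod_cast hb
  rw [div_le_one (by positivity)]
  exact one_le_pow₀ this

lemma Gc_abs (hb : 1 ≤ b) (c m : ℕ) : |Gc b w c m| ≤ 1 := by
  have h1 := p_pos (w := w) hb
  have h2 := p_le (w := w) hb
  unfold Gc
  rw [abs_le]
  split_ifs
  · constructor <;> linarith
  · constructor <;> linarith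

/-- exponential moment of one centred indicator -/
lemma one (hb : 1 ≤ b) {c : ℕ} (hc : c < b ^ w) {t : ℝ} (ht : |t| ≤ 1) :
    ∫ x, exp (t * Xw b w (Gc b w c) 0 x) ∂Leb ≤ exp (1 / (b : ℝ) ^ w * t ^ 2) := by
  have hp := p_pos (w := w) hb
  have hq : (b : ℝ) ^ w ≠ 0 := by
    have : (0 : ℝ) < b := by exact_mod_cast hb
    positivity
  have h1 : ∫ x, exp (t * Xw b w (Gc b w c) 0 x) ∂Leb =
      (∑ m ∈ range (b ^ w), exp (t * Gc b w c m)) / (b : ℝ) ^ w :=
    int_word hb w 0 (fun m => exp (t * Gc b w c m))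
  have h2 : ∀ m, exp (t * Gc b w c m) = exp (-(t * (1 / (b : ℝ) ^ w))) +
      (if m = c then exp (-(t * (1 / (b : ℝ) ^ w))) * (exp t - 1) else 0) := by
    intro m
    unfold Gc
    split_ifs with h
    · rw [mul_sub, mul_one, sub_eq_add_neg, exp_add]
      ring
    · rw [add_zero]
      congr 1
      ring
  rw [h1, sum_congr rfl (fun m _ => h2 m), sum_add_distrib, sum_const, card_range, nsmul_eq_mul,
    sum_ite_eq' (range (b ^ w)) c, if_pos (mem_range.2 hc)]
  push_cast
  have h3 : ((b : ℝ) ^ w * exp (-(t * (1 / (b : ℝ) ^ w))) +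
      exp (-(t * (1 / (b : ℝ) ^ w))) * (exp t - 1)) / (b : ℝ) ^ w =
      exp (-(t * (1 / (b : ℝ) ^ w))) * (1 / (b : ℝ) ^ w * (exp t - 1) + 1) := by
    field_simp
    ring
  rw [h3]
  have h4 : 1 / (b : ℝ) ^ w * (exp t - 1) + 1 ≤ exp (1 / (b : ℝ) ^ w * (t + t ^ 2)) := by
    refine (Real.add_one_le_exp _).trans (exp_le_exp.2 ?_)
    refine mul_le_mul_of_nonneg_left ?_ hp.le
    have h5 := Real.abs_exp_sub_one_sub_id_le ht
    have h6 := (abs_le.1 h5).2
    linarith
  calc exp (-(t * (1 / (b : ℝ) ^ w))) * (1 / (b : ℝ) ^ w * (exp t - 1) + 1)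
      ≤ exp (-(t * (1 / (b : ℝ) ^ w))) * exp (1 / (b : ℝ) ^ w * (t + t ^ 2)) := by gcongr
    _ = exp (1 / (b : ℝ) ^ w * t ^ 2) := by
        rw [← exp_add]
        congr 1
        ring

lemma occ_eq (b w N c : ℕ) (x : ℝ) :
    occ b w N c x - (N : ℝ) / (b : ℝ) ^ w = ∑ n ∈ range N, Xw b w (Gc b w c) n x := by
  unfold occ Xw Gc cnd
  rw [sum_sub_distrib, sum_const, card_range, nsmul_eq_mul]
  ring

lemma even_pow_le (y : ℝ) (s : ℕ) :
    y ^ (2 * s) ≤ (2 * s).factorial * (exp y + exp (-y)) := by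
  have h1 := Real.pow_div_factorial_le_exp (|y|) (abs_nonneg y) (2 * s)
  have hf : (0 : ℝ) < (2 * s).factorial := by exact_mod_cast Nat.factorial_pos _
  rw [div_le_iff₀ hf] at h1
  have h2 : |y| ^ (2 * s) = y ^ (2 * s) := by
    rw [pow_mul, sq_abs, ← pow_mul]
  have h3 : exp |y| ≤ exp y + exp (-y) := by
    rcases abs_cases y with h | h
    · rw [h.1]
      linarith [exp_pos (-y)]
    · rw [h.1]
      linarith [exp_pos y]
  rw [h2] at h1
  calc y ^ (2 * s) ≤ exp |y| * (2 * s).factorial := h1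
    _ ≤ (exp y + exp (-y)) * (2 * s).factorial := by gcongr
    _ = _ := by ring

/-- (L2) moments of the number of occurrences for a random real number -/
theorem l2 : St_L2 := by
  intro b w c s J hb hw hc
  have hwR : (0 : ℝ) < w := by exact_mod_cast hw
  have hp := p_pos (w := w) hb
  set p : ℝ := 1 / (b : ℝ) ^ w with hpdef
  have hJ : (0 : ℝ) ≤ J := Nat.cast_nonneg J
  have hJp : 0 ≤ J * p := by positivity
  set Q : ℝ := 1 + J / (b : ℝ) ^ w with hQdef
  have hQ : Q = 1 + J * p := by rw [hQdef, hpdef]; ring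
  have hQ1 : 1 ≤ Q := by linarith
  have hQ0 : 0 < Q := by linarith
  set R : ℝ := √Q with hRdef
  have hR1 : 1 ≤ R := Real.one_le_sqrt.2 hQ1
  have hR0 : 0 < R := by linarith
  have hR2 : R ^ 2 = Q := Real.sq_sqrt hQ0.le
  set T : ℝ := 1 / R with hTdef
  have hT0 : 0 < T := by positivity
  have hT1 : T ≤ 1 := by rw [hTdef, div_le_one hR0]; exact hR1
  have hTR : T * R = 1 := by rw [hTdef]; field_simp
  have hT2 : J * (p * T ^ 2) ≤ 1 := by
    have h1 : T ^ 2 * Q = 1 := by rw [← hR2, ← mul_pow, hTR, one_pow]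
    have h2 : 0 ≤ T ^ 2 := sq_nonneg T
    nlinarith
  set S : ℝ → ℝ := fun x => ∑ n ∈ range (w * J), Xw b w (Gc b w c) n x with hSdef
  have hSm : Measurable S := Finset.measurable_fun_sum _ fun n _ => measurable_Xw _ _ _ _
  have hSb : ∀ x, |S x| ≤ w * J := by
    intro x
    refine (Finset.abs_sum_le_sum_abs _ _).trans ?_
    calc ∑ n ∈ range (w * J), |Xw b w (Gc b w c) n x| ≤ ∑ _n ∈ range (w * J), (1 : ℝ) :=
          sum_le_sum fun n _ => Gc_abs hb c _
      _ = w * J := by rw [sum_const, card_range, nsmul_eq_mul, mul_one]; push_cast; ring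
  have hexp : ∀ t : ℝ, |t| = T → ∫ x, exp (t / w * S x) ∂Leb ≤ exp 1 := by
    intro t ht
    have h1 := blocks hb hw (G := Gc b w c) (K := 1) (Gc_abs hb c)
      (one hb hc (t := t) (by rw [ht]; exact hT1)) J
    refine h1.trans ?_
    rw [← exp_nat_mul]
    refine exp_le_exp.2 ?_
    have h2 : t ^ 2 = T ^ 2 := by rw [← sq_abs, ht]
    rw [h2]
    exact hT2
  have hint : ∀ t : ℝ, Integrable (fun x => exp (t / w * S x)) Leb := by
    intro t
    refine integrable_of_bdd (Real.measurable_exp.comp (hSm.const_mul _))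
      (R := exp (|t / w| * (w * J))) fun x => ?_
    rw [abs_of_pos (exp_pos _)]
    refine exp_le_exp.2 ((le_abs_self _).trans ?_)
    rw [abs_mul]
    gcongr
    exact hSb x
  have hfac : (0 : ℝ) < (2 * s).factorial := by exact_mod_cast Nat.factorial_pos _
  have hpt : ∀ x, (occ b w (w * J) c x - (w * J : ℕ) / (b : ℝ) ^ w) ^ (2 * s) ≤
      (w : ℝ) ^ (2 * s) * Q ^ s * ((2 * s).factorial *
        (exp (T / w * S x) + exp ((-T) / w * S x))) := by
    intro x
    rw [occ_eq]
    change S x ^ (2 * s) ≤ _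
    have h1 := even_pow_le (T / w * S x) s
    have h2 : S x = w * R * (T / w * S x) := by
      have : w * R * (T / w * S x) = (T * R) * (w / w) * S x := by ring
      rw [this, hTR, div_self hwR.ne', one_mul, one_mul]
    have h3 : S x ^ (2 * s) = (w : ℝ) ^ (2 * s) * Q ^ s * (T / w * S x) ^ (2 * s) := by
      conv_lhs => rw [h2]
      rw [mul_pow, mul_pow, pow_mul R, hR2]
    rw [h3]
    have h4 : -(T / w * S x) = (-T) / w * S x := by ring
    rw [h4] at h1
    gcongr
  calc ∫ x, (occ b w (w * J) c x - (w * J : ℕ) / (b : ℝ) ^ w) ^ (2 * s) ∂Leb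
      ≤ ∫ x, (w : ℝ) ^ (2 * s) * Q ^ s * ((2 * s).factorial *
        (exp (T / w * S x) + exp ((-T) / w * S x))) ∂Leb := by
        refine integral_mono_of_nonneg (Eventually.of_forall fun x => ?_)
          ((((hint T).add (hint (-T))).const_mul _).const_mul _) (Eventually.of_forall hpt)
        exact (even_two.mul_right s).pow_nonneg _
    _ = (w : ℝ) ^ (2 * s) * Q ^ s * ((2 * s).factorial *
        (∫ x, exp (T / w * S x) ∂Leb + ∫ x, exp ((-T) / w * S x) ∂Leb)) := by
        rw [MeasureTheory.integral_const_mul, MeasureTheory.integral_const_mul,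
          integral_add (hint T) (hint (-T))]
    _ ≤ (w : ℝ) ^ (2 * s) * Q ^ s * ((2 * s).factorial * (exp 1 + exp 1)) := by
        gcongr
        · exact hexp T (abs_of_pos hT0)
        · exact hexp (-T) (by rw [abs_neg, abs_of_pos hT0])
    _ ≤ (w : ℝ) ^ (2 * s) * Q ^ s * ((2 * s).factorial * 6) := by
        gcongr
        linarith [Real.exp_one_lt_d9]
    _ = 6 * (2 * s).factorial * (w : ℝ) ^ (2 * s) * Q ^ s := by ring

end Pool.Agent.N199.FSL2
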