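import Pool.Agent.N347.LA.Defs

set_option autoImplicit false

/-! LA/SEL: a subfunction with prescribed fibre sums. -/

namespace Pool.Agent.N199.LASELECT

open Finset

lemma select_aux {V : Type} [DecidableEq V] (s : V → ℕ) (S : Finset V) :
    ∀ n : ℕ, n ≤ ∑ u ∈ S, s u → ∃ y : V → ℕ, (∀ v, y v ≤ s v) ∧ ∑ u ∈ S, y u = n := by
  induction S using Finset.induction_on with
  | empty =>
    intro n hn
    rw [sum_empty] at hn
    exact ⟨fun _ => 0, fun _ => Nat.zero_le _, by rw [sum_empty]; omega⟩
  | insert a S ha ih =>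
    intro n hn
    rw [sum_insert ha] at hn
    obtain ⟨y, hy, hs⟩ := ih (n - min n (s a)) (by omega)
    refine ⟨Function.update y a (min n (s a)), ?_, ?_⟩
    · intro v
      by_cases h : v = a
      · subst h
        rw [Function.update_self]
        exact min_le_right _ _
      · rw [Function.update_of_ne h]
        exact hy v
    · rw [sum_insert ha, Function.update_self]
      have h1 : ∑ u ∈ S, Function.update y a (min n (s a)) u = ∑ u ∈ S, y u := by
        refine sum_congr rfl fun u hu => ?_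
        rw [Function.update_of_ne]
        exact fun h => ha (h ▸ hu)
      rw [h1, hs]
      omega

/-- LA/SEL -/
theorem select {V Q : Type} [Fintype V] [DecidableEq V] [DecidableEq Q] (f : V → Q) (s : V → ℕ)
    (n : ℕ) (h : ∀ v, n ≤ ∑ u ∈ univ.filter (fun u => f u = f v), s u) :
    ∃ y : V → ℕ, (∀ v, y v ≤ s v) ∧ ∀ v, ∑ u ∈ univ.filter (fun u => f u = f v), y u = n := by
  have hq : ∀ q : Q, ∃ y : V → ℕ, (∀ v, y v ≤ s v) ∧
      ((∃ v, f v = q) → ∑ u ∈ univ.filter (fun u => f u = q), y u = n) := by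
    intro q
    by_cases hv : ∃ v, f v = q
    · obtain ⟨v, rfl⟩ := hv
      obtain ⟨y, hy, hs⟩ := select_aux s _ n (h v)
      exact ⟨y, hy, fun _ => hs⟩
    · exact ⟨s, fun _ => le_rfl, fun h' => absurd h' hv⟩
  choose Y hY hs using hq
  refine ⟨fun v => Y (f v) v, fun v => hY _ _, fun v => ?_⟩
  rw [← hs (f v) ⟨v, rfl⟩]
  refine sum_congr rfl fun u hu => ?_
  rw [mem_filter] at hu
  show Y (f u) u = Y (f v) u
  rw [hu.2]

end Pool.Agent.N199.LASELECT
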