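import Pool.Agent.N585.PA.Defs

/-!
# Semantics of `dia`, of the announcements and of `ge` (project PA, part 2)
-/

set_option autoImplicit false

namespace Pool.Agent.N199.PA2

open Pool.Agent.N585.PA

section

variable {A W P : Type} (M : Model A W) (a b : A) (e : Lt P → ℕ)

theorem sat_imp (φ ψ : Form A) (S : Set W) (w : W) :
    sat M (imp φ ψ) S w ↔ (sat M φ S w → sat M ψ S w) := by
  simp only [imp, sat]
  tauto

theorem sat_dia (χ : Form A) (S : Set W) (w : W) (hS : ∀ l, ¬ M.V (e .vx) l → l ∈ S) :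
    sat M (dia a b e χ) S w ↔ ∃ v, Ed M a b e w v ∧ v ∈ S ∧ sat M χ S v := by
  simp only [dia, sat, at']
  constructor
  · intro h
    push Not at h
    obtain ⟨l, hl, hwl, hvl, v, hv, hlv, hxv, hc⟩ := h
    exact ⟨v, ⟨l, hwl, hvl, hlv, hxv⟩, hv, hc⟩
  · rintro ⟨v, ⟨l, hwl, hvl, hlv, hxv⟩, hv, hc⟩ h
    exact h l (hS l hvl) hwl ⟨hvl, fun h' => h' v hv hlv ⟨hxv, hc⟩⟩

theorem Pt_letter (l : Lt P) (n : ℕ) (w : W) (h : Pt M a b e l n w) : M.V (e l) w := by
  cases n with
  | zero => exact h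
  | succ n => exact h.1

theorem Pt_mono (l : Lt P) (n : ℕ) : ∀ w : W, Pt M a b e l (n + 1) w → Pt M a b e l n w := by
  induction n with
  | zero => intro w h; exact h.1
  | succ n ih =>
    rintro w ⟨h1, v, h2, h3⟩
    exact ⟨h1, v, h2, ih v h3⟩

theorem Pt_mono' (l : Lt P) (n m : ℕ) (w : W) (h : Pt M a b e l (n + m) w) :
    Pt M a b e l n w := by
  induction m with
  | zero => exact h
  | succ m ih => exact ih (Pt_mono M a b e l (n + m) w h)

theorem Sn_succ (l : Lt P) (n : ℕ) (w : W) : w ∈ Sn M a b e l (n + 1) ↔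
    w ∈ Sn M a b e l n ∧ sat M (peel a b e l) (Sn M a b e l n) w := by
  unfold Sn
  rw [Function.iterate_succ_apply']
  rfl

theorem mem_Sn (l : Lt P) (n : ℕ) : ∀ w : W, w ∈ Sn M a b e l n ↔
    (M.V (e .vx) w → M.V (e l) w → Pt M a b e l n w) := by
  induction n with
  | zero =>
    intro w
    exact ⟨fun _ _ h => h, fun _ => Set.mem_univ w⟩
  | succ n ih =>
    intro w
    have hS : ∀ x : W, ¬ M.V (e .vx) x → x ∈ Sn M a b e l n :=
      fun x hx => (ih x).2 fun h => absurd h hx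
    have key : sat M (dia a b e (at' e l)) (Sn M a b e l n) w ↔
        ∃ v, Ed M a b e w v ∧ Pt M a b e l n v := by
      rw [sat_dia M a b e _ _ _ hS]
      constructor
      · rintro ⟨v, h1, h2, h3⟩
        have h4 : M.V (e .vx) v := by
          obtain ⟨_, _, _, _, h⟩ := h1
          exact h
        exact ⟨v, h1, (ih v).1 h2 h4 h3⟩
      · rintro ⟨v, h1, h2⟩
        exact ⟨v, h1, (ih v).2 fun _ _ => h2, Pt_letter M a b e l n v h2⟩
    rw [Sn_succ, ih w]
    unfold peel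
    rw [sat_imp, sat_imp, key]
    constructor
    · rintro ⟨_, h2⟩ h3 h4
      exact ⟨h4, h2 h3 h4⟩
    · intro h
      exact ⟨fun h3 h4 => Pt_mono M a b e l n w (h h3 h4), fun h3 h4 => (h h3 h4).2⟩

theorem sat_ge (j : Bool × Bool) (n m : ℕ) : ∀ w : W,
    sat M (ge a b e j (m + 1)) (Sn M a b e (.ch j) n) w ↔
      ∃ v, Ed M a b e w v ∧ Pt M a b e (.ch j) (n + m) v := by
  have hS : ∀ x : W, ¬ M.V (e .vx) x → x ∈ Sn M a b e (.ch j) n :=
    fun x hx => (mem_Sn M a b e _ n x).2 fun h => absurd h hx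
  have hmem : ∀ v w : W, Ed M a b e w v → v ∈ Sn M a b e (.ch j) n → M.V (e (.ch j)) v →
      Pt M a b e (.ch j) n v := by
    intro v w h1 h2 h3
    have h4 : M.V (e .vx) v := by
      obtain ⟨_, _, _, _, h⟩ := h1
      exact h
    exact (mem_Sn M a b e _ n v).1 h2 h4 h3
  induction m with
  | zero =>
    intro w
    change sat M (dia a b e (.and (at' e (.ch j)) (ge a b e j 0))) _ w ↔ _
    rw [sat_dia M a b e _ _ _ hS]
    constructor
    · rintro ⟨v, h1, h2, h3⟩
      exact ⟨v, h1, hmem v w h1 h2 h3.1⟩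
    · rintro ⟨v, h1, h2⟩
      refine ⟨v, h1, (mem_Sn M a b e _ n v).2 fun _ _ => h2, Pt_letter M a b e _ _ v h2, ?_⟩
      simp only [ge, tt, sat]
      tauto
  | succ m ih =>
    intro w
    change sat M (dia a b e (.and (at' e (.ch j)) (ge a b e j (m + 1)))) _ w ↔ _
    rw [sat_dia M a b e _ _ _ hS]
    constructor
    · rintro ⟨v, h1, h2, h3, h4⟩
      exact ⟨v, h1, h3, (ih v).1 h4⟩
    · rintro ⟨v, h1, h2⟩
      have h3 : Pt M a b e (.ch j) n v := Pt_mono' M a b e _ n (m + 1) v h2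
      exact ⟨v, h1, (mem_Sn M a b e _ n v).2 fun _ _ => h3, h2.1, (ih v).2 h2.2⟩

end

theorem stmPeel : StmPeel := by
  intro A W P M a b e
  exact ⟨fun χ S w hS => sat_dia M a b e χ S w hS, fun l n w => mem_Sn M a b e l n w,
    fun j n m w => sat_ge M a b e j n m w⟩

end Pool.Agent.N199.PA2
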