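import Mathlib
import Pool.Agent.N753.SU.StmB

/-!
# Families of polynomials in several variables without common factors (subtask SU/B)
-/

set_option autoImplicit false

namespace Pool.Agent.N199.SU

open Polynomial Pool.Agent.N753.SU

/-! ### Bézout -/

theorem bez {L ι : Type} [Field L] [Fintype ι] (G : ι → L[X])
    (h : ∀ g : L[X], (∀ i, g ∣ G i) → IsUnit g) :
    ∃ B : ι → L[X], ∑ i, B i * G i = 1 := by
  obtain ⟨I, hI⟩ : ∃ I : Ideal L[X], I = Ideal.span (Set.range G) := ⟨_, rfl⟩
  have h1 : ∀ i, Submodule.IsPrincipal.generator I ∣ G i := by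
    intro i
    rw [← Submodule.IsPrincipal.mem_iff_generator_dvd, hI]
    exact Ideal.subset_span ⟨i, rfl⟩
  have h2 := h _ h1
  have h3 : I = ⊤ := Ideal.eq_top_of_isUnit_mem _ (Submodule.IsPrincipal.generator_mem I) h2
  have h4 : (1 : L[X]) ∈ Ideal.span (Set.range G) := by
    rw [← hI, h3]
    trivial
  exact Ideal.mem_span_range_iff_exists_fun.1 h4

section frac

variable {R L : Type} [CommRing R] [IsDomain R] [Field L] [Algebra R L] [IsFractionRing R L]

/-- clearing denominators -/
theorem clear (a : L[X]) : ∃ (m : R) (A : R[X]), m ≠ 0 ∧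
      A.map (algebraMap R L) = C (algebraMap R L m) * a := by
  obtain ⟨m, hm0, hm⟩ := IsLocalization.integerNormalization_spec (nonZeroDivisors R) a
  refine ⟨m, IsLocalization.integerNormalization (nonZeroDivisors R) a,
    nonZeroDivisors.ne_zero hm0, ?_⟩
  ext i
  rw [hm, coeff_smul, coeff_C_mul, Algebra.smul_def]

theorem clear_fam {ι : Type} [Fintype ι] (g : ι → R[X]) (a : ι → L[X])
    (h : ∑ k, a k * (g k).map (algebraMap R L) = 1) :
    ∃ (A : ι → R[X]) (c : R), c ≠ 0 ∧ ∑ k, A k * g k = C c := by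
  classical
  choose m A hm hA using fun k => clear (R := R) (L := L) (a k)
  refine ⟨fun k => C (∏ j ∈ Finset.univ.erase k, m j) * A k, ∏ j, m j,
    Finset.prod_ne_zero_iff.2 fun j _ => hm j, ?_⟩
  apply Polynomial.map_injective (algebraMap R L) (IsFractionRing.injective R L)
  rw [Polynomial.map_sum, map_C]
  have h1 : ∀ k, (C (∏ j ∈ Finset.univ.erase k, m j) * A k * g k).map (algebraMap R L) =
      C (algebraMap R L (∏ j, m j)) * (a k * (g k).map (algebraMap R L)) := by
    intro k
    rw [Polynomial.map_mul, Polynomial.map_mul, map_C, hA,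
      ← Finset.mul_prod_erase Finset.univ m (Finset.mem_univ k), map_mul, C_mul]
    ring
  simp only [h1]
  rw [← Finset.mul_sum, h, mul_one]

end frac

/-- no common factor in `R[X]` gives no common factor in `L[X]` -/
theorem cop {R L : Type} [CommRing R] [IsDomain R] [UniqueFactorizationMonoid R] [Field L]
    [Algebra R L] [IsFractionRing R L] {ι : Type} (g : ι → R[X])
    (h : ∀ P, Irreducible P → ¬ ∀ k, P ∣ g k) (h0 : ∃ k, g k ≠ 0) (d : L[X])
    (hd : ∀ k, d ∣ (g k).map (algebraMap R L)) : IsUnit d := by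
  classical
  let _ : NormalizedGCDMonoid R :=
    @UniqueFactorizationMonoid.toNormalizedGCDMonoid R _ _
      (UniqueFactorizationMonoid.strongNormalizationMonoid (α := R)).toNormalizationMonoid
  have hinj : Function.Injective (algebraMap R L) := IsFractionRing.injective R L
  by_contra hu
  have hd0 : d ≠ 0 := by
    rintro rfl
    obtain ⟨k, hk⟩ := h0
    have h1 := hd k
    rw [zero_dvd_iff, Polynomial.map_eq_zero_iff hinj] at h1
    exact hk h1
  obtain ⟨p, hp, hpd⟩ := WfDvdMonoid.exists_irreducible_factor hu hd0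
  obtain ⟨m, e, hm, he⟩ := clear (R := R) (L := L) p
  have he0 : e ≠ 0 := by
    rintro rfl
    rw [Polynomial.map_zero] at he
    have h2 : C (algebraMap R L m) ≠ 0 := by
      rw [Ne, C_eq_zero, map_eq_zero_iff _ hinj]
      exact hm
    exact hp.ne_zero ((mul_eq_zero.1 he.symm).resolve_left h2)
  have hc0 : e.content ≠ 0 := by
    rw [Ne, content_eq_zero_iff]
    exact he0
  have hmap : e.map (algebraMap R L) =
      C (algebraMap R L e.content) * e.primPart.map (algebraMap R L) := by
    conv_lhs => rw [e.eq_C_content_mul_primPart]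
    rw [Polynomial.map_mul, map_C]
  have hu1 : IsUnit (C (algebraMap R L m)) := isUnit_C.2 (isUnit_iff_ne_zero.2 (by
    rw [Ne, map_eq_zero_iff _ hinj]
    exact hm))
  have hu2 : IsUnit (C (algebraMap R L e.content)) := isUnit_C.2 (isUnit_iff_ne_zero.2 (by
    rw [Ne, map_eq_zero_iff _ hinj]
    exact hc0))
  have hass : Associated p (e.primPart.map (algebraMap R L)) := by
    have h3 : C (algebraMap R L m) * p =
        C (algebraMap R L e.content) * e.primPart.map (algebraMap R L) := by rw [← he, hmap]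
    have h4 : Associated p (C (algebraMap R L m) * p) :=
      (associated_unit_mul_left p _ hu1).symm
    have h5 : Associated (C (algebraMap R L e.content) * e.primPart.map (algebraMap R L))
        (e.primPart.map (algebraMap R L)) := associated_unit_mul_left _ _ hu2
    exact h4.trans (h3 ▸ h5)
  have hprim : e.primPart.IsPrimitive := e.isPrimitive_primPart
  have hirr : Irreducible e.primPart :=
    (hprim.irreducible_iff_irreducible_map_fraction_map (K := L)).2 (hass.irreducible hp)
  refine h _ hirr fun k => ?_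
  refine hprim.dvd_of_fraction_map_dvd_fraction_map (K := L) ?_
  exact hass.symm.dvd.trans (hpd.trans (hd k))

/-- the reflected family -/
theorem cop_reflect {L ι : Type} [Field L] [Fintype ι] (g : ι → L[X]) (B : ι → L[X])
    (hB : ∑ k, B k * g k = 1) (a : ℕ) (ha : ∀ k, (g k).natDegree ≤ a)
    (h0 : ∃ k, (g k).coeff a ≠ 0) (d : L[X]) (hd : ∀ k, d ∣ reflect a (g k)) : IsUnit d := by
  by_contra hu
  obtain ⟨k0, hk0⟩ := h0
  have hd0 : d ≠ 0 := by
    rintro rfl
    have h1 := hd k0
    rw [zero_dvd_iff, reflect_eq_zero_iff] at h1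
    rw [h1, coeff_zero] at hk0
    exact hk0 rfl
  have hdeg : d.degree ≠ 0 := by
    intro h
    exact hu (isUnit_iff_degree_eq_zero.2 h)
  obtain ⟨z, hz⟩ := IsAlgClosed.exists_aeval_eq_zero (AlgebraicClosure L) d hdeg
  have h2 : ∀ k, aeval z (reflect a (g k)) = 0 := by
    intro k
    obtain ⟨q, hq⟩ := hd k
    rw [hq, map_mul, hz, zero_mul]
  by_cases hz0 : z = 0
  · have h3 := h2 k0
    rw [hz0, aeval_def, eval₂_at_zero, coeff_reflect, revAt_zero, map_eq_zero] at h3
    exact hk0 h3
  · let _ : Invertible z⁻¹ := invertibleOfNonzero (inv_ne_zero hz0)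
    have h3 : ∀ k, aeval z⁻¹ (g k) = 0 := by
      intro k
      have h4 := eval₂_reflect_mul_pow (algebraMap L (AlgebraicClosure L)) z⁻¹ a (g k) (ha k)
      have h5 : ⅟(z⁻¹) = z := by
        rw [invOf_eq_inv, inv_inv]
      have h6 := h2 k
      rw [aeval_def] at h6
      rw [h5, h6, zero_mul] at h4
      rw [aeval_def]
      exact h4.symm
    have h4 := congrArg (aeval z⁻¹) hB
    rw [map_sum, map_one] at h4
    simp only [map_mul, h3, mul_zero, Finset.sum_const_zero] at h4
    exact zero_ne_one h4

theorem stmB1 : StmB1 := by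
  intro K _ m ι _ G hG a ha hex
  obtain ⟨k0, hk0, hka⟩ := hex
  let R := MvPolynomial (Fin m) K
  let L := FractionRing (MvPolynomial (Fin m) K)
  let g : ι → (MvPolynomial (Fin m) K)[X] := fun k => MvPolynomial.finSuccEquiv K m (G k)
  have hinj : Function.Injective (algebraMap (MvPolynomial (Fin m) K) L) :=
    IsFractionRing.injective _ _
  have hg : ∀ P, Irreducible P → ¬ ∀ k, P ∣ g k := by
    intro P hP hall
    refine hG ((MvPolynomial.finSuccEquiv K m).symm P)
      ((MulEquiv.irreducible_iff (MvPolynomial.finSuccEquiv K m).symm).2 hP) fun k => ?_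
    have h1 := map_dvd (MvPolynomial.finSuccEquiv K m).symm (hall k)
    have h2 : (MvPolynomial.finSuccEquiv K m).symm (g k) = G k :=
      (MvPolynomial.finSuccEquiv K m).symm_apply_apply (G k)
    rwa [h2] at h1
  have hgk0 : g k0 ≠ 0 := by
    intro h
    exact hk0 ((MvPolynomial.finSuccEquiv K m).injective (h.trans (map_zero _).symm))
  have hdeg : ∀ k, (g k).natDegree ≤ a := by
    intro k
    have h1 : (g k).natDegree = (G k).degreeOf 0 := MvPolynomial.natDegree_finSuccEquiv _
    rw [h1]
    exact ha k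
  obtain ⟨B, hB⟩ := bez (fun k => (g k).map (algebraMap (MvPolynomial (Fin m) K) L))
    (cop g hg ⟨k0, hgk0⟩)
  obtain ⟨A, c, hc, hA⟩ := clear_fam g B hB
  have hcoef : ((g k0).map (algebraMap (MvPolynomial (Fin m) K) L)).coeff a ≠ 0 := by
    rw [coeff_map, Ne, map_eq_zero_iff _ hinj]
    have h1 : (g k0).natDegree = a := by
      have h2 : (g k0).natDegree = (G k0).degreeOf 0 := MvPolynomial.natDegree_finSuccEquiv _
      rw [h2, hka]
    rw [← h1]
    exact leadingCoeff_ne_zero.2 hgk0
  obtain ⟨B', hB'⟩ := bez (fun k => reflect a ((g k).map (algebraMap (MvPolynomial (Fin m) K) L)))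
    (cop_reflect _ B hB a (fun k => natDegree_map_le.trans (hdeg k)) ⟨k0, hcoef⟩)
  have hB'' : ∑ k, B' k * (reflect a (g k)).map (algebraMap (MvPolynomial (Fin m) K) L) = 1 := by
    rw [← hB']
    refine Finset.sum_congr rfl fun k _ => ?_
    rw [reflect_map]
  obtain ⟨A', c', hc', hA'⟩ := clear_fam (fun k => reflect a (g k)) B' hB''
  exact ⟨A, A', c, c', hc, hc', hA, hA'⟩

theorem stmB2 : StmB2 := by
  intro K _ m ι G hG P hP hall
  have h1 : Irreducible (C P : (MvPolynomial (Fin m) K)[X]) :=
    (Polynomial.prime_C_iff.2 hP.prime).irreducible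
  refine hG ((MvPolynomial.finSuccEquiv K m).symm (C P))
    ((MulEquiv.irreducible_iff (MvPolynomial.finSuccEquiv K m).symm).2 h1) fun k => ?_
  have h2 : C P ∣ MvPolynomial.finSuccEquiv K m (G k) := by
    rw [C_dvd_iff_dvd_coeff]
    exact fun j => hall k j
  have h3 := map_dvd (MvPolynomial.finSuccEquiv K m).symm h2
  rwa [(MvPolynomial.finSuccEquiv K m).symm_apply_apply] at h3

theorem stmB3 : StmB3 := by
  intro K _ m F i hF
  have h1 : F.support.Nonempty := MvPolynomial.support_nonempty.2 hF
  obtain ⟨s, hs, h2⟩ := Finset.exists_mem_eq_sup _ h1 fun t => t i.succ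
  rw [← MvPolynomial.degreeOf_eq_sup] at h2
  have h3 : (Finsupp.tail s) ∈ ((MvPolynomial.finSuccEquiv K m F).coeff (s 0)).support := by
    rw [MvPolynomial.mem_support_coeff_finSuccEquiv, Finsupp.cons_tail]
    exact hs
  refine ⟨s 0, ?_, ?_, ?_⟩
  · rw [MvPolynomial.degreeOf_eq_sup]
    exact Finset.le_sup (f := fun t => t 0) hs
  · refine le_antisymm (MvPolynomial.degreeOf_coeff_finSuccEquiv F i (s 0)) ?_
    rw [h2, MvPolynomial.degreeOf_eq_sup]
    exact Finset.le_sup (f := fun t => t i) h3
  · intro h0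
    rw [h0, MvPolynomial.support_zero] at h3
    exact absurd h3 (Finset.notMem_empty _)

theorem stmB4 : StmB4 := by
  intro K _ m F σ
  have h0 : ∀ G : MvPolynomial (Fin (m + 1)) K,
      MvPolynomial.rename σ G = MvPolynomial.renameEquiv K σ G := fun G => rfl
  refine ⟨fun h => ?_, fun G h hass => ?_, fun i => ?_, fun x => ?_⟩
  · rw [h0]
    exact (MulEquiv.irreducible_iff (MvPolynomial.renameEquiv K σ)).2 h
  · apply h
    have h1 := hass.map (MvPolynomial.renameEquiv K σ).symm
    rw [h0, h0, AlgEquiv.symm_apply_apply, AlgEquiv.symm_apply_apply] at h1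
    exact h1
  · exact MvPolynomial.degreeOf_rename_of_injective σ.injective i
  · exact MvPolynomial.eval_rename _ _ _


end Pool.Agent.N199.SU
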