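import Pool.Agent.N502.TM.Stm

/-! # Project TM: heat operators on `L²` (S_TOP) -/

set_option autoImplicit false

namespace Pool.Agent.N199.TMTOP

open MeasureTheory Set Filter Topology
open scoped ENNReal Real InnerProductSpace
open Pool.Agent.N502.TM

variable {d : ℕ} {s t : ℝ}

lemma heat_nonneg (hs : 0 < s) (z : V d) : 0 ≤ heat d s z := by
  unfold heat
  positivity

lemma heat_le (hs : 0 < s) (z : V d) : heat d s z ≤ (4 * π * s) ^ (-(d : ℝ) / 2) := by
  unfold heat
  refine mul_le_of_le_one_right (by positivity) ?_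
  rw [Real.exp_le_one_iff]
  exact div_nonpos_of_nonpos_of_nonneg (neg_nonpos.2 (by positivity)) (by positivity)

lemma heat_sub (x y : V d) : heat d s (x - y) = heat d s (y - x) := by
  unfold heat
  rw [norm_sub_rev]

lemma heat_cont : Continuous (heat d s) := by
  unfold heat
  fun_prop

lemma heat_int (G : S_GAU) (hs : 0 < s) : Integrable (heat d s) := by
  refine ⟨heat_cont.aestronglyMeasurable, ?_⟩
  have h : ∀ x : V d, ‖heat d s x‖ₑ = ENNReal.ofReal (heat d s x) := fun x =>
    Real.enorm_of_nonneg (heat_nonneg hs x)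
  unfold HasFiniteIntegral
  rw [lintegral_congr h, G.one d s hs]
  exact ENNReal.one_lt_top

lemma heat_one (G : S_GAU) (hs : 0 < s) : ∫ x, heat d s x = 1 := by
  rw [integral_eq_lintegral_of_nonneg_ae (Eventually.of_forall fun x => heat_nonneg hs x)
    heat_cont.aestronglyMeasurable, G.one d s hs, ENNReal.toReal_one]

lemma heat_int_x (G : S_GAU) (hs : 0 < s) (x : V d) : Integrable (fun y => heat d s (x - y)) :=
  (heat_int G hs).comp_sub_left x

lemma heat_one_x (G : S_GAU) (hs : 0 < s) (x : V d) : ∫ y, heat d s (x - y) = 1 := by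
  rw [integral_sub_left_eq_self (heat d s) volume x, heat_one G hs]

lemma heat_conv (G : S_GAU) (hs : 0 < s) (ht : 0 < t) (x z : V d) :
    ∫ y, heat d t (y - z) * heat d s (x - y) = heat d (s + t) (x - z) := by
  have h1 : ∫ y, heat d t (y - z) * heat d s (x - y) =
      ∫ y, heat d s ((x - z) - y) * heat d t y := by
    rw [← integral_add_right_eq_self (fun y => heat d t (y - z) * heat d s (x - y)) z]
    refine integral_congr_ae (Eventually.of_forall fun y => ?_)
    show heat d t (y + z - z) * heat d s (x - (y + z)) = heat d s ((x - z) - y) * heat d t y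
    rw [add_sub_cancel_right, mul_comm, sub_sub, add_comm z y]
  rw [h1, integral_eq_lintegral_of_nonneg_ae (Eventually.of_forall fun y =>
    mul_nonneg (heat_nonneg hs _) (heat_nonneg ht _))]
  · have h2 : ∀ y : V d, ENNReal.ofReal (heat d s (x - z - y) * heat d t y) =
        ENNReal.ofReal (heat d s (x - z - y)) * ENNReal.ofReal (heat d t y) := fun y =>
      ENNReal.ofReal_mul (heat_nonneg hs _)
    rw [lintegral_congr h2, G.conv d s t hs ht (x - z), ENNReal.toReal_ofReal
      (heat_nonneg (by positivity) _)]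
  · exact ((heat_cont.comp (continuous_const.sub continuous_id)).mul heat_cont).aestronglyMeasurable

/-- integrability on the product -/
lemma int_prod (G : S_GAU) (hs : 0 < s) {F : V d → ℝ} (hF : Integrable F) :
    Integrable (fun p : V d × V d => F p.2 * heat d s (p.1 - p.2))
      ((volume : Measure (V d)).prod volume) :=
  hF.convolution_integrand (ContinuousLinearMap.mul ℝ ℝ) (heat_int G hs)

lemma int_prod' (G : S_GAU) (hs : 0 < s) {F : V d → ℝ} (hF : Integrable F) :
    Integrable (fun p : V d × V d => F p.1 * heat d s (p.1 - p.2))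
      ((volume : Measure (V d)).prod volume) := by
  have h := (int_prod G hs hF).swap
  refine h.congr (Eventually.of_forall fun p => ?_)
  show F p.1 * heat d s (p.2 - p.1) = F p.1 * heat d s (p.1 - p.2)
  rw [heat_sub]

/-- the convolution -/
noncomputable def cv (d : ℕ) (s : ℝ) (f : V d → ℝ) (x : V d) : ℝ := ∫ y, f y * heat d s (x - y)

lemma mem_sq {f : V d → ℝ} (hf : MemLp f 2) : Integrable (fun x => f x ^ 2) := hf.integrable_sq

lemma cv_int (G : S_GAU) (hs : 0 < s) {f : V d → ℝ} (hf : MemLp f 2) (x : V d) :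
    Integrable (fun y => f y * heat d s (x - y)) := by
  have h1 : Integrable (fun y => f y ^ 2 * heat d s (x - y)) :=
    (mem_sq hf).mul_bdd (c := (4 * π * s) ^ (-(d : ℝ) / 2))
      (heat_cont.comp (continuous_const.sub continuous_id)).aestronglyMeasurable
      (Eventually.of_forall fun y => by
        show ‖heat d s (x - y)‖ ≤ _
        rw [Real.norm_of_nonneg (heat_nonneg hs _)]
        exact heat_le hs _)
  refine ((h1.add (heat_int_x G hs x))).mono' (hf.1.mul
    (heat_cont.comp (continuous_const.sub continuous_id)).aestronglyMeasurable)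
    (Eventually.of_forall fun y => ?_)
  show ‖f y * heat d s (x - y)‖ ≤ f y ^ 2 * heat d s (x - y) + heat d s (x - y)
  rw [norm_mul, Real.norm_of_nonneg (heat_nonneg hs _), Real.norm_eq_abs]
  have h2 := heat_nonneg hs (x - y)
  have h3 : |f y| ≤ f y ^ 2 + 1 := by nlinarith [sq_abs (f y), sq_nonneg (|f y| - 1)]
  nlinarith

lemma cv_sq_int (hs : 0 < s) {f : V d → ℝ} (hf : MemLp f 2) (x : V d) :
    Integrable (fun y => f y ^ 2 * heat d s (x - y)) :=
  (mem_sq hf).mul_bdd (c := (4 * π * s) ^ (-(d : ℝ) / 2))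
    (heat_cont.comp (continuous_const.sub continuous_id)).aestronglyMeasurable
    (Eventually.of_forall fun y => by
      show ‖heat d s (x - y)‖ ≤ _
      rw [Real.norm_of_nonneg (heat_nonneg hs _)]
      exact heat_le hs _)

/-- Jensen -/
lemma cv_sq (G : S_GAU) (hs : 0 < s) {f : V d → ℝ} (hf : MemLp f 2) (x : V d) :
    cv d s f x ^ 2 ≤ ∫ y, f y ^ 2 * heat d s (x - y) := by
  obtain ⟨c, hc⟩ : ∃ c, c = cv d s f x := ⟨_, rfl⟩
  have h1 := cv_int G hs hf x
  have h2 := cv_sq_int hs hf x
  have h3 := heat_int_x G hs x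
  have h4 : 0 ≤ ∫ y, (f y - c) ^ 2 * heat d s (x - y) :=
    integral_nonneg fun y => mul_nonneg (sq_nonneg _) (heat_nonneg hs _)
  have h5 : ∫ y, (f y - c) ^ 2 * heat d s (x - y) =
      (∫ y, f y ^ 2 * heat d s (x - y)) - 2 * c * (∫ y, f y * heat d s (x - y)) +
        c ^ 2 * ∫ y, heat d s (x - y) := by
    have h7 : Integrable (fun y => f y ^ 2 * heat d s (x - y) -
        2 * c * (f y * heat d s (x - y))) := h2.sub (h1.const_mul _)
    rw [← integral_const_mul, ← integral_const_mul, ← integral_sub h2 (h1.const_mul _),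
      ← integral_add h7 (h3.const_mul _)]
    refine integral_congr_ae (Eventually.of_forall fun y => ?_)
    show (f y - c) ^ 2 * heat d s (x - y) = (f y ^ 2 * heat d s (x - y) -
      2 * c * (f y * heat d s (x - y))) + c ^ 2 * heat d s (x - y)
    ring
  rw [h5, heat_one_x G hs x] at h4
  have h6 : ∫ y, f y * heat d s (x - y) = c := hc.symm
  rw [h6] at h4
  rw [← hc]
  nlinarith

lemma cv_meas {f : V d → ℝ} (hf : AEStronglyMeasurable f) :
    AEStronglyMeasurable (cv d s f) := by
  have h : AEStronglyMeasurable (fun p : V d × V d => f p.2 * heat d s (p.1 - p.2))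
      ((volume : Measure (V d)).prod volume) :=
    hf.comp_snd.mul (heat_cont.comp (continuous_fst.sub continuous_snd)).aestronglyMeasurable
  exact h.integral_prod_right'

lemma cv_mem (G : S_GAU) (hs : 0 < s) {f : V d → ℝ} (hf : MemLp f 2) :
    MemLp (cv d s f) 2 ∧ ∫ x, cv d s f x ^ 2 ≤ ∫ x, f x ^ 2 := by
  have hm := cv_meas (s := s) hf.1
  have h1 := (int_prod G hs (mem_sq hf)).integral_prod_left
  have h2 : ∀ x, cv d s f x ^ 2 ≤ ∫ y, f y ^ 2 * heat d s (x - y) := cv_sq G hs hf
  have h3 : Integrable (fun x => cv d s f x ^ 2) := by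
    refine h1.mono' (hm.pow 2) (Eventually.of_forall fun x => ?_)
    rw [Real.norm_of_nonneg (sq_nonneg _)]
    exact h2 x
  refine ⟨(memLp_two_iff_integrable_sq hm).2 h3, ?_⟩
  refine (integral_mono h3 h1 h2).trans ?_
  have h4 := integral_integral_swap (μ := (volume : Measure (V d))) (ν := (volume : Measure (V d)))
    (f := fun x y => f y ^ 2 * heat d s (x - y)) (int_prod G hs (mem_sq hf))
  have h5 : ∫ x, (∫ y, f y ^ 2 * heat d s (x - y)) = ∫ y, f y ^ 2 := by
    rw [h4]
    refine integral_congr_ae (Eventually.of_forall fun y => ?_)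
    show ∫ x, f y ^ 2 * heat d s (x - y) = f y ^ 2
    rw [integral_const_mul]
    have h6 : ∫ x, heat d s (x - y) = 1 := by
      rw [← heat_one_x G hs y]
      exact integral_congr_ae (Eventually.of_forall fun x => heat_sub x y)
    rw [h6, mul_one]
  exact h5.le

lemma cv_congr {f g : V d → ℝ} (h : f =ᵐ[volume] g) (x : V d) : cv d s f x = cv d s g x := by
  refine integral_congr_ae ?_
  filter_upwards [h] with y hy
  rw [hy]

lemma norm_sq_eq (f : L2 d) : ‖f‖ ^ 2 = ∫ x, f x ^ 2 := by
  rw [← real_inner_self_eq_norm_sq, L2.inner_def]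
  refine integral_congr_ae (Eventually.of_forall fun x => ?_)
  show ⟪f x, f x⟫_ℝ = f x ^ 2
  rw [real_inner_self_eq_norm_sq, Real.norm_eq_abs, sq_abs]

/-- the operator -/
noncomputable def TT (G : S_GAU) (hs : 0 < s) : L2 d →L[ℝ] L2 d :=
  LinearMap.mkContinuous
    { toFun := fun f => (cv_mem G hs (Lp.memLp f)).1.toLp (cv d s f)
      map_add' := by
        intro f g
        rw [← MemLp.toLp_add]
        refine MemLp.toLp_congr _ _ (Eventually.of_forall fun x => ?_)
        rw [cv_congr (Lp.coeFn_add f g) x]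
        show (∫ y, (f y + g y) * heat d s (x - y)) =
          (∫ y, f y * heat d s (x - y)) + ∫ y, g y * heat d s (x - y)
        rw [← integral_add (cv_int G hs (Lp.memLp f) x) (cv_int G hs (Lp.memLp g) x)]
        refine integral_congr_ae (Eventually.of_forall fun y => ?_)
        exact add_mul _ _ _
      map_smul' := by
        intro c f
        show _ = c • _
        rw [← MemLp.toLp_const_smul]
        refine MemLp.toLp_congr _ _ (Eventually.of_forall fun x => ?_)
        rw [cv_congr (Lp.coeFn_smul c f) x]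
        show (∫ y, (c * f y) * heat d s (x - y)) = c * ∫ y, f y * heat d s (x - y)
        rw [← integral_const_mul]
        refine integral_congr_ae (Eventually.of_forall fun y => ?_)
        exact mul_assoc _ _ _ }
    1 (by
      intro f
      rw [one_mul]
      show ‖(cv_mem G hs (Lp.memLp f)).1.toLp (cv d s f)‖ ≤ ‖f‖
      have h1 := (cv_mem G hs (Lp.memLp f)).2
      refine (sq_le_sq₀ (norm_nonneg _) (norm_nonneg _)).1 ?_
      rw [norm_sq_eq, norm_sq_eq]
      refine le_trans (le_of_eq ?_) h1
      refine integral_congr_ae ?_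
      filter_upwards [(cv_mem G hs (Lp.memLp f)).1.coeFn_toLp] with x hx
      rw [hx])

lemma TT_ae (G : S_GAU) (hs : 0 < s) (f : L2 d) :
    (TT G hs f : V d → ℝ) =ᵐ[volume] cv d s f :=
  (cv_mem G hs (Lp.memLp f)).1.coeFn_toLp

lemma TT_norm (G : S_GAU) (hs : 0 < s) : ‖(TT G hs : L2 d →L[ℝ] L2 d)‖ ≤ 1 :=
  LinearMap.mkContinuous_norm_le _ zero_le_one _

/-- integrability of the double integral -/
lemma int_fg (G : S_GAU) (hs : 0 < s) (f g : L2 d) :
    Integrable (fun p : V d × V d => f p.1 * g p.2 * heat d s (p.1 - p.2))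
      ((volume : Measure (V d)).prod volume) := by
  have h1 := int_prod' G hs (mem_sq (Lp.memLp f))
  have h2 := int_prod G hs (mem_sq (Lp.memLp g))
  refine (h1.add h2).mono' (((Lp.aestronglyMeasurable f).comp_fst.mul
    (Lp.aestronglyMeasurable g).comp_snd).mul
    (heat_cont.comp (continuous_fst.sub continuous_snd)).aestronglyMeasurable)
    (Eventually.of_forall fun p => ?_)
  show ‖f p.1 * g p.2 * heat d s (p.1 - p.2)‖ ≤
    f p.1 ^ 2 * heat d s (p.1 - p.2) + g p.2 ^ 2 * heat d s (p.1 - p.2)
  rw [norm_mul, Real.norm_of_nonneg (heat_nonneg hs _), ← add_mul]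
  refine mul_le_mul_of_nonneg_right ?_ (heat_nonneg hs _)
  rw [Real.norm_eq_abs, abs_mul]
  nlinarith [sq_abs (f p.1), sq_abs (g p.2), sq_nonneg (|f p.1| - |g p.2|),
    abs_nonneg (f p.1), abs_nonneg (g p.2), sq_nonneg (f p.1), sq_nonneg (g p.2)]

lemma inner_real (a b : ℝ) : ⟪a, b⟫_ℝ = a * b := by
  simp [mul_comm]

lemma TT_inner (G : S_GAU) (hs : 0 < s) (f g : L2 d) :
    ⟪f, TT G hs g⟫_ℝ = ∫ p : V d × V d, f p.1 * g p.2 * heat d s (p.1 - p.2)
      ∂((volume : Measure (V d)).prod volume) := by
  rw [integral_prod _ (int_fg G hs f g), L2.inner_def]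
  refine integral_congr_ae ?_
  filter_upwards [TT_ae G hs g] with x hx
  rw [hx]
  show ⟪f x, cv d s g x⟫_ℝ = ∫ y, f x * g y * heat d s (x - y)
  rw [inner_real]
  unfold cv
  rw [← integral_const_mul]
  refine integral_congr_ae (Eventually.of_forall fun y => ?_)
  exact (mul_assoc _ _ _).symm

lemma TT_symm (G : S_GAU) (hs : 0 < s) (f g : L2 d) : ⟪TT G hs f, g⟫_ℝ = ⟪f, TT G hs g⟫_ℝ := by
  rw [real_inner_comm, TT_inner, TT_inner, ← integral_prod_swap]
  refine integral_congr_ae (Eventually.of_forall fun p => ?_)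
  show g p.2 * f p.1 * heat d s (p.2 - p.1) = f p.1 * g p.2 * heat d s (p.1 - p.2)
  rw [heat_sub, mul_comm (g p.2)]

lemma cv_cv (G : S_GAU) (hs : 0 < s) (ht : 0 < t) {f : V d → ℝ} (hf : MemLp f 2) (x : V d) :
    cv d s (cv d t f) x = cv d (s + t) f x := by
  have hA : Integrable (fun p : V d × V d => (f p.2 ^ 2 * heat d t (p.1 - p.2)) *
      heat d s (x - p.1)) ((volume : Measure (V d)).prod volume) :=
    (int_prod G ht (mem_sq hf)).mul_bdd (c := (4 * π * s) ^ (-(d : ℝ) / 2))
      (heat_cont.comp (continuous_const.sub continuous_fst)).aestronglyMeasurable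
      (Eventually.of_forall fun p => by
        show ‖heat d s (x - p.1)‖ ≤ _
        rw [Real.norm_of_nonneg (heat_nonneg hs _)]
        exact heat_le hs _)
  have hB : Integrable (fun p : V d × V d => heat d s (x - p.1) * heat d t (p.1 - p.2))
      ((volume : Measure (V d)).prod volume) := int_prod' G ht (heat_int_x G hs x)
  have hC : Integrable (fun p : V d × V d => f p.2 * heat d t (p.1 - p.2) * heat d s (x - p.1))
      ((volume : Measure (V d)).prod volume) := by
    refine (hA.add hB).mono' ((hf.1.comp_snd.mul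
      (heat_cont.comp (continuous_fst.sub continuous_snd)).aestronglyMeasurable).mul
      (heat_cont.comp (continuous_const.sub continuous_fst)).aestronglyMeasurable)
      (Eventually.of_forall fun p => ?_)
    show ‖f p.2 * heat d t (p.1 - p.2) * heat d s (x - p.1)‖ ≤
      (f p.2 ^ 2 * heat d t (p.1 - p.2)) * heat d s (x - p.1) +
        heat d s (x - p.1) * heat d t (p.1 - p.2)
    rw [norm_mul, norm_mul, Real.norm_of_nonneg (heat_nonneg hs _),
      Real.norm_of_nonneg (heat_nonneg ht _), Real.norm_eq_abs]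
    have h1 := mul_nonneg (heat_nonneg ht (p.1 - p.2)) (heat_nonneg hs (x - p.1))
    have h3 : |f p.2| ≤ f p.2 ^ 2 + 1 := by
      nlinarith [sq_abs (f p.2), sq_nonneg (|f p.2| - 1)]
    nlinarith
  have h1 : cv d s (cv d t f) x =
      ∫ y, ∫ z, f z * heat d t (y - z) * heat d s (x - y) := by
    refine integral_congr_ae (Eventually.of_forall fun y => ?_)
    show (∫ z, f z * heat d t (y - z)) * heat d s (x - y) =
      ∫ z, f z * heat d t (y - z) * heat d s (x - y)
    rw [integral_mul_const]
  have h2 := integral_integral_swap (μ := (volume : Measure (V d))) (ν := (volume : Measure (V d)))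
    (f := fun y z => f z * heat d t (y - z) * heat d s (x - y)) hC
  rw [h1, h2]
  refine integral_congr_ae (Eventually.of_forall fun z => ?_)
  show ∫ y, f z * heat d t (y - z) * heat d s (x - y) = f z * heat d (s + t) (x - z)
  rw [← heat_conv G hs ht x z, ← integral_const_mul]
  refine integral_congr_ae (Eventually.of_forall fun y => ?_)
  exact mul_assoc _ _ _

lemma TT_semi (G : S_GAU) (hs : 0 < s) (ht : 0 < t) (hst : 0 < s + t) (f : L2 d) :
    TT G hs (TT G ht f) = TT G hst f := by
  apply Lp.ext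
  filter_upwards [TT_ae G hs (TT G ht f), TT_ae G hst f] with x h1 h2
  rw [h1, h2, cv_congr (TT_ae G ht f) x]
  exact cv_cv G hs ht (Lp.memLp f) x

/-- **S_TOP** -/
theorem main : S_TOP := by
  intro G d
  obtain ⟨T, e⟩ : ∃ T : ℝ → (L2 d →L[ℝ] L2 d), ∀ s (hs : 0 < s), T s = TT G hs :=
    ⟨fun s => if hs : 0 < s then TT G hs else 0, fun s hs => dif_pos hs⟩
  refine ⟨T, ?_⟩
  constructor
  · intro s hs f
    rw [e s hs]
    exact TT_ae G hs f
  · intro s hs f g
    exact int_fg G hs f g
  · intro s hs f g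
    rw [e s hs]
    exact TT_inner G hs f g
  · intro s hs f g
    rw [e s hs]
    exact TT_symm G hs f g
  · intro s hs
    rw [e s hs]
    exact TT_norm G hs
  · intro s t hs ht f
    rw [e s hs, e t ht, e (s + t) (add_pos hs ht)]
    exact TT_semi G hs ht (add_pos hs ht) f

end Pool.Agent.N199.TMTOP
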