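import Pool.Agent.N709.UM.Stm2

set_option autoImplicit false

/-!
Project UM2 (helper709), leaf CAU: an asymptotically central ultrafilter with asymptotically invariant
norm which does not converge is not Cauchy.
-/

open Filter Topology

universe u

namespace Pool.Agent.N199.UM2CAU

open Pool.Agent.N709.UM

theorem cau : Pool.Agent.N709.UM.Cau.{u} := by
  intro G _ _ _ hRC hNA ρ hρ F hF hno
  by_contra hcon
  push Not at hcon
  apply hno
  have key : ∀ U : Subgroup G, IsOpen (U : Set G) →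
      {a : G | {b : G | a * b⁻¹ ∈ U} ∈ F} ∈ F := by
    intro U hU
    have h1 := hcon U hU
    have h2 : {a : G | {b : G | a * b⁻¹ ∉ U} ∈ F}ᶜ ∈ F :=
      Ultrafilter.compl_mem_iff_notMem.2 h1
    refine Filter.mem_of_superset h2 ?_
    intro a ha
    have h3 : {b : G | a * b⁻¹ ∉ U} ∉ F := ha
    have h4 : {b : G | a * b⁻¹ ∉ U}ᶜ ∈ F := Ultrafilter.compl_mem_iff_notMem.2 h3
    refine Filter.mem_of_superset h4 ?_
    intro b hb
    by_contra hb'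
    exact hb hb'
  refine hRC (F : Filter G) inferInstance ?_
  intro V hV
  obtain ⟨r, hr, hrV⟩ := hρ.gen V hV
  have hball : {g : G | ρ g < r / 2} ∈ 𝓝 (1 : G) := by
    have hc : Tendsto ρ (𝓝 (1 : G)) (𝓝 (ρ 1)) := hρ.cont.tendsto 1
    rw [hρ.pn.one] at hc
    exact hc (Iio_mem_nhds (by linarith))
  obtain ⟨U, hUo, hU⟩ := hNA _ (Filter.inter_mem hball hV)
  have h5 := key U hUo
  obtain ⟨a, ha⟩ := F.neBot.nonempty_of_mem h5
  have hB : {b : G | a * b⁻¹ ∈ U} ∈ F := ha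
  have hA := hF.inv (r / 4) (by linarith)
  refine ⟨{b : G | a * b⁻¹ ∈ U} ∩
    {x : G | ∀ c, ρ (x * c * x⁻¹) ≤ ρ c + r / 4 ∧ ρ (x⁻¹ * c * x) ≤ ρ c + r / 4},
    Filter.inter_mem hB hA, ?_⟩
  rintro x ⟨hx1, hx2⟩ y ⟨hy1, -⟩
  have hx1' : a * x⁻¹ ∈ U := hx1
  have hy1' : a * y⁻¹ ∈ U := hy1
  have h6 : y * x⁻¹ ∈ U := by
    have h7 := U.mul_mem (U.inv_mem hy1') hx1'
    have h8 : (a * y⁻¹)⁻¹ * (a * x⁻¹) = y * x⁻¹ := by group
    rwa [h8] at h7
  have h7 := hU h6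
  refine ⟨?_, h7.2⟩
  apply hrV
  have h8 : ρ (y * x⁻¹) < r / 2 := h7.1
  have h9 := (hx2 (y * x⁻¹)).2
  have h10 : x⁻¹ * (y * x⁻¹) * x = x⁻¹ * y := by group
  rw [h10] at h9
  linarith

end Pool.Agent.N199.UM2CAU
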